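import Pool.Agent.P.MP_50f9b9_al.Key

/-! Strebel's theorem in the form needed: images of injective endomorphisms have finite index. -/

set_option maxHeartbeats 400000

namespace Pool.Agent.P.MP_50f9b9_al

variable {G : Type} [Group G]

/-- The subgroup generated by the elements `v x - x`. -/
def LI (V : Subgroup G) (P : Type) [AddCommGroup P] [Module (ZG G) P] : AddSubgroup P :=
  AddSubgroup.closure {y | ∃ v ∈ V, ∃ x : P, y = og v • x - x}

section
variable {P Q : Type} [AddCommGroup P] [Module (ZG G) P] [AddCommGroup Q] [Module (ZG G) Q]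

theorem LI_map {V V' : Subgroup G} (f : P →+ Q)
    (hf : ∀ v ∈ V, ∃ v' ∈ V', ∀ x, f (og v • x) = og v' • f x) {y : P} (hy : y ∈ LI V P) :
    f y ∈ LI V' Q := by
  have : LI V P ≤ (LI V' Q).comap f := (AddSubgroup.closure_le _).mpr (by
    rintro _ ⟨v, hv, x, rfl⟩
    obtain ⟨v', hv', e⟩ := hf v hv
    exact AddSubgroup.subset_closure ⟨v', hv', f x, by rw [map_sub, e]⟩)
  exact this hy

theorem tau_LI {V : Subgroup G} (a : P →ₗ[ZG G] ZG G) {y : P} (hy : y ∈ LI V P) :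
    tau V (a y) = 0 := by
  have : LI V P ≤ ((tau V).comp a.toAddMonoidHom).ker := (AddSubgroup.closure_le _).mpr (by
    rintro _ ⟨v, hv, x, rfl⟩
    simp [tau_left V hv])
  exact this hy

theorem Frame.mem_LI (F : Frame G P) (V : Subgroup G) (y : P)
    (hy : ∀ a : P →ₗ[ZG G] ZG G, tau V (a y) = 0) : y ∈ LI V P := by
  rw [← F.sum y]
  refine (LI V P).sum_mem fun i _ => ?_
  refine mem_left V ((LI V P).comap ((smulAddHom (ZG G) P).flip (F.e i))) (fun g w hw => ?_) _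
    fun x => hy (rm (F.j i) (og x))
  exact AddSubgroup.subset_closure ⟨w, hw, og g • F.e i, by simp [sub_smul, mul_smul]⟩

end

theorem exists_of_tau_ne (V : Subgroup G) (r : ZG G) (g : G) (h : tau V (r * og g) ≠ 0) :
    ∃ y ∈ r.coeff.support, y * g ∈ V := by
  by_contra hc
  push Not at hc
  apply h
  rw [← r.sum_coeff_single, Finsupp.sum, Finset.sum_mul, map_sum]
  refine Finset.sum_eq_zero fun y hy => ?_
  have : MonoidAlgebra.single y (r.coeff y) = r.coeff y • og y := by simp [og]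
  rw [this, smul_mul_assoc, map_zsmul, ← og_mul, tau_og_notMem _ (hc y hy), smul_zero]

namespace Res3

variable (R : Res3 G)

theorem exists_fund (W : Subgroup G) [W.FiniteIndex] (hW : W ≤ R.Gp) :
    ∃ x : R.P3, ∀ a : R.P3 →ₗ[ZG G] ZG G, tau W (a x) = R.deg a := by
  classical
  have := Fintype.ofFinite (G ⧸ W)
  refine ⟨∑ i, ∑ κ : G ⧸ W, R.deg (rm (R.F3.j i) (og κ.out)) • og κ.out⁻¹ • R.F3.e i,
    fun a => ?_⟩
  conv_rhs => rw [← R.F3.dual_sum a, map_sum]
  rw [map_sum, map_sum]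
  refine Finset.sum_congr rfl fun i _ => ?_
  have := hom_ext (f := R.deg.comp (rmHom (R.F3.j i)))
    (g := ∑ κ : G ⧸ W, (AddMonoidHom.mulLeft (R.deg (rm (R.F3.j i) (og κ.out)))).comp
      ((tau W).comp (AddMonoidHom.mulLeft (og κ.out⁻¹)))) (fun g => by
      have h1 : ∀ κ : G ⧸ W, κ.out⁻¹ * g ∈ W ↔ (g : G ⧸ W) = κ := fun κ => by
        rw [← QuotientGroup.eq, QuotientGroup.out_eq', eq_comm]
      simp only [AddMonoidHom.finsetSum_apply, AddMonoidHom.comp_apply, AddMonoidHom.coe_mulLeft,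
        ← og_mul, tau_og, h1, mul_ite, mul_one, mul_zero, Finset.sum_ite_eq, Finset.mem_univ,
        if_true]
      rw [← R.deg_rm_og (hW ((h1 _).mpr rfl)) (rm _ _)]
      congr 1
      ext x : 1
      simp [rmHom, mul_assoc, ← og_mul])
  have e := DFunLike.congr_fun this (a (R.F3.e i))
  simp only [AddMonoidHom.finsetSum_apply, AddMonoidHom.comp_apply, AddMonoidHom.coe_mulLeft]
    at e
  refine Eq.trans ?_ e.symm
  simp only [map_sum, map_zsmul, map_smul, smul_eq_mul]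

theorem mem_LI3 (V : Subgroup G) (hV : ¬ V.FiniteIndex) (z : R.P3)
    (hz : R.d3 z ∈ LI V R.P2) : z ∈ LI V R.P3 := by
  have h0 : tau V (R.u z) = 0 := by
    by_contra hne
    apply hV
    have h1 : ∀ g ∈ R.Gp, ∃ y ∈ (R.u z).coeff.support, y * g ∈ V := fun g hg => by
      obtain ⟨b, hb⟩ := R.exists_rm_sub hg R.u
      have e1 := LinearMap.congr_fun hb z
      have e2 := tau_LI b hz
      simp only [LinearMap.comp_apply, LinearMap.sub_apply, rm_apply] at e1
      rw [e1, map_sub, sub_eq_zero] at e2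
      exact exists_of_tau_ne V _ g (e2 ▸ hne)
    have : Finite (G ⧸ V) := Finite.of_surjective
      (fun p : (G ⧸ R.Gp) × (R.u z).coeff.support => ((p.1.out * (p.2 : G)⁻¹ : G) : G ⧸ V))
      fun c => by
        obtain ⟨g, rfl⟩ := QuotientGroup.mk_surjective c
        obtain ⟨y, hy, e⟩ := h1 ((g : G ⧸ R.Gp).out⁻¹ * g)
          (QuotientGroup.eq.mp (QuotientGroup.out_eq' _))
        exact ⟨⟨g, y, hy⟩, QuotientGroup.eq.mpr (by simpa [mul_assoc] using e)⟩
    exact Subgroup.finiteIndex_of_finite_quotient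
  refine R.F3.mem_LI V z fun a => ?_
  obtain ⟨b, hb⟩ := R.decomp a
  have e := LinearMap.congr_fun hb z
  simp only [LinearMap.comp_apply, LinearMap.add_apply, LinearMap.smul_apply] at e
  rw [e, map_add, map_zsmul, h0, tau_LI b hz]
  simp

theorem exists_htpy (W : Subgroup G) (k0 : R.P0 →+ R.P0) (k1 : R.P1 →+ R.P1) (k2 : R.P2 →+ R.P2)
    (k3 : R.P3 →+ R.P3) (a0 : ∀ (w : W) x, k0 (og (w : G) • x) = og (w : G) • k0 x)
    (a1 : ∀ (w : W) x, k1 (og (w : G) • x) = og (w : G) • k1 x)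
    (a2 : ∀ (w : W) x, k2 (og (w : G) • x) = og (w : G) • k2 x)
    (b0 : ∀ x, R.eps (k0 x) = 0) (b1 : ∀ x, R.d1 (k1 x) = k0 (R.d1 x))
    (b2 : ∀ x, R.d2 (k2 x) = k1 (R.d2 x)) (b3 : ∀ x, R.d3 (k3 x) = k2 (R.d3 x)) :
    ∃ s : R.P2 →+ R.P3, (∀ (w : W) x, s (og (w : G) • x) = og (w : G) • s x) ∧
      ∀ x, k3 x = s (R.d3 x) := by
  obtain ⟨s0, c0, e0⟩ := R.F0.exists_lift W (fun w => w) (fun _ _ => rfl)
    ((R.d1.toAddMonoidHom.comp (AddMonoidHom.snd _ _)).eqLocus (k0.comp (AddMonoidHom.fst _ _)))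
    (fun h x y e => by
      change R.d1 _ = k0 _ at e ⊢
      simp only [AddMonoidHom.coe_snd, AddMonoidHom.coe_fst, map_smul, a0] at e ⊢
      rw [e]) (fun x => (R.ex0 _).mp (b0 x))
  replace e0 : ∀ x, R.d1 (s0 x) = k0 x := e0
  obtain ⟨s1, c1, e1⟩ := R.F1.exists_lift W (fun w => w) (fun _ _ => rfl)
    ((R.d2.toAddMonoidHom.comp (AddMonoidHom.snd _ _)).eqLocus
      ((k1 - s0.comp R.d1.toAddMonoidHom).comp (AddMonoidHom.fst _ _)))
    (fun h x y e => by
      change R.d2 _ = k1 _ - s0 (R.d1 _) at e ⊢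
      simp only [AddMonoidHom.coe_snd, AddMonoidHom.coe_fst, map_smul, a1, c0] at e ⊢
      rw [e, smul_sub])
    (fun x => (R.ex1 (k1 x - s0 (R.d1 x))).mp (by rw [map_sub, b1, e0, sub_self]))
  replace e1 : ∀ x, R.d2 (s1 x) = k1 x - s0 (R.d1 x) := e1
  obtain ⟨s2, c2, e2⟩ := R.F2.exists_lift W (fun w => w) (fun _ _ => rfl)
    ((R.d3.toAddMonoidHom.comp (AddMonoidHom.snd _ _)).eqLocus
      ((k2 - s1.comp R.d2.toAddMonoidHom).comp (AddMonoidHom.fst _ _)))
    (fun h x y e => by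
      change R.d3 _ = k2 _ - s1 (R.d2 _) at e ⊢
      simp only [AddMonoidHom.coe_snd, AddMonoidHom.coe_fst, map_smul, a2, c1] at e ⊢
      rw [e, smul_sub])
    (fun x => (R.ex2 (k2 x - s1 (R.d2 x))).mp (by
      rw [map_sub, b2, e1, R.d1_d2, map_zero, sub_zero, sub_self]))
  replace e2 : ∀ x, R.d3 (s2 x) = k2 x - s1 (R.d2 x) := e2
  refine ⟨s2, c2, fun x => sub_eq_zero.mp (R.ex3 _ ?_)⟩
  rw [map_sub, b3, e2, R.d2_d3, map_zero, sub_zero, sub_self]

theorem strebel_aux (W W' : Subgroup G) [W.FiniteIndex] (hW : W ≤ R.Gp) (e : W ≃* W') :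
    W'.FiniteIndex := by
  by_contra hV
  obtain ⟨f0, f1, f2, f3, a0, a1, a2, a3, b0, b1, b2, b3⟩ :=
    R.exists_chain W (fun w => e w) (fun a b => by rw [map_mul]; rfl)
  obtain ⟨g0, g1, g2, g3, c0, c1, c2, c3, e0, e1, e2, e3⟩ :=
    R.exists_chain W' (fun w => e.symm w) (fun a b => by rw [map_mul]; rfl)
  obtain ⟨s, hs, hs'⟩ := R.exists_htpy W (g0.comp f0 - .id _) (g1.comp f1 - .id _)
    (g2.comp f2 - .id _) (g3.comp f3 - .id _)
    (fun w x => by simp [a0, c0, smul_sub]) (fun w x => by simp [a1, c1, smul_sub])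
    (fun w x => by simp [a2, c2, smul_sub]) (fun x => by simp [b0, e0])
    (fun x => by simp [b1, e1]) (fun x => by simp [b2, e2]) (fun x => by simp [b3, e3])
  obtain ⟨x, hx⟩ := R.exists_fund W hW
  have h1 : R.d3 x ∈ LI W R.P2 := R.F2.mem_LI W _ fun b =>
    (hx (b ∘ₗ R.d3)).trans ((R.deg_ker _).mpr ⟨b, rfl⟩)
  have h2' : f2 (R.d3 x) ∈ LI W' R.P2 :=
    LI_map (V := W) f2 (fun v hv => ⟨e ⟨v, hv⟩, (e ⟨v, hv⟩).2, a2 ⟨v, hv⟩⟩) h1
  have h2 : f3 x ∈ LI W' R.P3 := R.mem_LI3 W' hV _ (b3 x ▸ h2')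
  have h3 : g3 (f3 x) ∈ LI W R.P3 :=
    LI_map (V := W') g3 (fun v hv => ⟨e.symm ⟨v, hv⟩, (e.symm ⟨v, hv⟩).2, c3 ⟨v, hv⟩⟩) h2
  have h4 : s (R.d3 x) ∈ LI W R.P3 := LI_map (V := W) s (fun v hv => ⟨v, hv, hs ⟨v, hv⟩⟩) h1
  have h5 : x ∈ LI W R.P3 := by
    have h6 : g3 (f3 x) - x = s (R.d3 x) := hs' x
    have := (LI W R.P3).sub_mem h3 h4
    rwa [← h6, sub_sub_cancel] at this
  have h6 := tau_LI R.u h5
  rw [hx, R.deg_u] at h6
  exact one_ne_zero h6

include R in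
theorem strebel (H : Subgroup G) [H.FiniteIndex] (φ : H →* H) (hφ : Function.Injective φ) :
    φ.range.FiniteIndex := by
  let W : Subgroup G := H ⊓ R.Gp
  let j : W →* G := (H.subtype.comp φ).comp (Subgroup.inclusion inf_le_left)
  have hj : Function.Injective j :=
    (H.subtype_injective.comp hφ).comp (Subgroup.inclusion_injective _)
  have h1 := R.strebel_aux W j.range inf_le_right (MonoidHom.ofInjective hj)
  have h2 : j.range.subgroupOf H ≤ φ.range := by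
    rintro x ⟨w, hw⟩
    exact ⟨_, Subtype.ext hw⟩
  exact Subgroup.finiteIndex_of_le h2

include R in
theorem cohopf (hab : ∀ W : Subgroup G, W.FiniteIndex → Finite (Abelianization W))
    (H : Subgroup G) [H.FiniteIndex] (φ : H →* H) (hφ : Function.Injective φ) :
    Function.Surjective φ := by
  have := R.strebel H φ hφ
  exact R.surj_of_finiteIndex hab H φ hφ

end Res3

end Pool.Agent.P.MP_50f9b9_al
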