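import Pool.Agent.P.MP_50f9b9_al.Res

/-! Truncation of a finite projective resolution to length three. -/

namespace Pool.Agent.P.MP_50f9b9_al

/-- A finite projective resolution of arbitrary length with the duality conditions. -/
structure ResN (G : Type) [Group G] where
  /-- modules -/
  M : ℕ → ModuleCat.{0} (ZG G)
  /-- boundaries -/
  D : ∀ i, M (i + 1) →ₗ[ZG G] M i
  fin : ∀ i, Module.Finite (ZG G) (M i)
  proj : ∀ i, Module.Projective (ZG G) (M i)
  /-- length -/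
  n : ℕ
  zero : ∀ i, n < i → Subsingleton (M i)
  /-- augmentation -/
  eps : M 0 →+ ℤ
  eps_smul : ∀ (g : G) x, eps (og g • x) = eps x
  eps_surj : ∃ r, eps r = 1
  ex0 : ∀ x, eps x = 0 ↔ ∃ y, D 0 y = x
  ex : ∀ i x, D i x = 0 ↔ ∃ y, D (i + 1) y = x
  co : ∀ i, i + 1 ≠ 3 → ∀ a : M (i + 1) →ₗ[ZG G] ZG G, a ∘ₗ D (i + 1) = 0 →
    ∃ b : M i →ₗ[ZG G] ZG G, b ∘ₗ D i = a
  /-- the top class, as a function on cocycles -/
  deg : (a : M 3 →ₗ[ZG G] ZG G) → a ∘ₗ D 3 = 0 → ℤ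
  deg_add : ∀ a b ha hb hab, deg (a + b) hab = deg a ha + deg b hb
  deg_surj : ∃ a ha, deg a ha = 1
  deg_ker : ∀ a ha, deg a ha = 0 ↔ ∃ b : M 2 →ₗ[ZG G] ZG G, b ∘ₗ D 2 = a

variable {G : Type} [Group G]

namespace ResN

variable (R : ResN G)

/-- The map induced by a boundary on the cokernel of the previous one. -/
noncomputable def bar (i : ℕ) :
    (R.M (i + 1) ⧸ LinearMap.range (R.D (i + 1))) →ₗ[ZG G] R.M i :=
  (LinearMap.range (R.D (i + 1))).liftQ (R.D i) (by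
    rintro _ ⟨y, rfl⟩; exact (R.ex i _).mpr ⟨y, rfl⟩)

theorem bar_mk (i : ℕ) (x : R.M (i + 1)) : R.bar i (Submodule.Quotient.mk x) = R.D i x := rfl

theorem proj_step (i : ℕ) (hi : 3 ≤ i)
    (h : Module.Projective (ZG G) (R.M (i + 1) ⧸ LinearMap.range (R.D (i + 1)))) :
    Module.Projective (ZG G) (R.M i ⧸ LinearMap.range (R.D i)) := by
  have := R.fin (i + 1)
  have := R.proj i
  obtain ⟨F⟩ := nonempty_frame (G := G) (R.M (i + 1) ⧸ LinearMap.range (R.D (i + 1)))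
  choose b hb using fun k => R.co i (by omega) (F.j k ∘ₗ Submodule.mkQ _) (by
    ext y : 1
    have : (LinearMap.range (R.D (i + 1))).mkQ (R.D (i + 1) y) = 0 :=
      (Submodule.Quotient.mk_eq_zero _).mpr ⟨y, rfl⟩
    simp only [LinearMap.comp_apply, this, map_zero, LinearMap.zero_apply])
  let ρ : R.M i →ₗ[ZG G] (R.M (i + 1) ⧸ LinearMap.range (R.D (i + 1))) :=
    ∑ k, (LinearMap.toSpanSingleton _ _ (F.e k)) ∘ₗ b k
  have hρ : ∀ y, ρ (R.D i y) = Submodule.Quotient.mk y := fun y => by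
    rw [← F.sum (Submodule.Quotient.mk y)]
    simp only [ρ, LinearMap.sum_apply, LinearMap.comp_apply, LinearMap.toSpanSingleton_apply]
    refine Finset.sum_congr rfl fun k _ => ?_
    rw [← LinearMap.comp_apply, hb]; rfl
  let σ : (R.M i ⧸ LinearMap.range (R.D i)) →ₗ[ZG G] R.M i :=
    (LinearMap.range (R.D i)).liftQ (LinearMap.id - R.bar i ∘ₗ ρ) (by
      rintro _ ⟨y, rfl⟩
      simp [hρ, bar_mk])
  refine Module.Projective.of_split σ (Submodule.mkQ _) ?_
  ext x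
  change Submodule.Quotient.mk (x - R.bar i (ρ x)) = Submodule.Quotient.mk x
  rw [Submodule.Quotient.eq]
  obtain ⟨y, hy⟩ := Submodule.Quotient.mk_surjective _ (ρ x)
  exact ⟨-y, by rw [← hy, bar_mk, map_neg]; abel⟩

theorem proj_quot (i : ℕ) (hi : 3 ≤ i) :
    Module.Projective (ZG G) (R.M i ⧸ LinearMap.range (R.D i)) := by
  have key : ∀ t i, 3 ≤ i → R.n < i + t →
      Module.Projective (ZG G) (R.M i ⧸ LinearMap.range (R.D i)) := by
    intro t
    induction t with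
    | zero =>
      intro i _ h
      have := R.zero i h
      have : Subsingleton (R.M i ⧸ LinearMap.range (R.D i)) :=
        (Submodule.Quotient.mk_surjective _).subsingleton
      infer_instance
    | succ t ih => intro i hi h; exact R.proj_step i hi (ih (i + 1) (by omega) (by omega))
  exact key (R.n + 1) i hi (by omega)

include R in
theorem nonempty_res3 : Nonempty (Res3 G) := by
  have := R.fin
  have := R.proj
  have := R.proj_quot 3 le_rfl
  obtain ⟨F0⟩ := nonempty_frame (G := G) (R.M 0)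
  obtain ⟨F1⟩ := nonempty_frame (G := G) (R.M 1)
  obtain ⟨F2⟩ := nonempty_frame (G := G) (R.M 2)
  obtain ⟨F3⟩ := nonempty_frame (G := G) (R.M 3 ⧸ LinearMap.range (R.D 3))
  obtain ⟨r0, hr0⟩ := R.eps_surj
  obtain ⟨u, hu, hu1⟩ := R.deg_surj
  have hz : ∀ a : (R.M 3 ⧸ LinearMap.range (R.D 3)) →ₗ[ZG G] ZG G,
      (a ∘ₗ Submodule.mkQ _) ∘ₗ R.D 3 = 0 := fun a => by
    ext y : 1
    have : (LinearMap.range (R.D 3)).mkQ (R.D 3 y) = 0 :=
      (Submodule.Quotient.mk_eq_zero _).mpr ⟨y, rfl⟩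
    simp only [LinearMap.comp_apply, this, map_zero, LinearMap.zero_apply]
  refine ⟨{
    P0 := R.M 0, P1 := R.M 1, P2 := R.M 2
    P3 := ModuleCat.of _ (R.M 3 ⧸ LinearMap.range (R.D 3))
    F0 := F0, F1 := F1, F2 := F2, F3 := F3
    d1 := R.D 0, d2 := R.D 1, d3 := R.bar 2
    eps := R.eps, eps_smul := R.eps_smul, r0 := r0, eps_r0 := hr0
    ex0 := R.ex0, ex1 := R.ex 0
    ex2 := fun x => (R.ex 1 x).trans ⟨fun ⟨y, hy⟩ => ⟨Submodule.Quotient.mk y, hy⟩, ?_⟩
    ex3 := ?_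
    co2 := fun a ha => R.co 1 (by omega) a ?_
    deg := AddMonoidHom.mk' (fun a => R.deg (a ∘ₗ Submodule.mkQ _) (hz a))
      fun a b => R.deg_add _ _ (hz a) (hz b) (hz (a + b))
    u := (LinearMap.range (R.D 3)).liftQ u (by
      rintro _ ⟨y, rfl⟩; exact LinearMap.congr_fun hu y)
    deg_u := hu1
    deg_ker := fun a => (R.deg_ker _ (hz a)).trans ⟨?_, ?_⟩ }⟩
  · rintro ⟨y, rfl⟩
    obtain ⟨y, rfl⟩ := Submodule.Quotient.mk_surjective _ y
    exact ⟨y, rfl⟩
  · intro x hx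
    obtain ⟨x, rfl⟩ := Submodule.Quotient.mk_surjective _ x
    exact (Submodule.Quotient.mk_eq_zero _).mpr ((R.ex 2 x).mp hx)
  · ext y : 1
    exact LinearMap.congr_fun ha (Submodule.Quotient.mk y)
  · rintro ⟨b, hb⟩
    refine ⟨b, LinearMap.ext fun x => ?_⟩
    obtain ⟨x, rfl⟩ := Submodule.Quotient.mk_surjective _ x
    exact LinearMap.congr_fun hb x
  · rintro ⟨b, rfl⟩
    exact ⟨b, rfl⟩

end ResN

end Pool.Agent.P.MP_50f9b9_al
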