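import Pool.Agent.P.MP_50f9b9_al.Defs
import Pool.Agent.P.MP_50f9b9_al.Trunc
import Pool.Agent.P.MP_50f9b9_al.Strebel

/-! From the definition of a `PD₃`-group to explicit resolutions. -/

set_option maxHeartbeats 400000

namespace Pool.Agent.P.MP_50f9b9_al

open CategoryTheory

variable {G : Type} [Group G]

/-- The functor to modules over the group ring. -/
noncomputable abbrev TM (G : Type) [Group G] : Rep.{0} ℤ G ⥤ ModuleCat.{0} (ZG G) :=
  Rep.toModuleMonoidAlgebra

/-- A morphism to the regular representation as a linear form. -/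
noncomputable def toDual {X : Rep.{0} ℤ G} (f : X ⟶ Rep.leftRegular ℤ G) :
    (TM G).obj X →ₗ[ZG G] ZG G :=
  (Representation.ofMulActionSelfAsModuleEquiv (k := ℤ) (G := G)).toLinearMap ∘ₗ
    ((TM G).map f).hom

theorem toDual_comp {X Y : Rep.{0} ℤ G} (g : X ⟶ Y) (f : Y ⟶ Rep.leftRegular ℤ G) :
    toDual (g ≫ f) = toDual f ∘ₗ ((TM G).map g).hom := rfl

theorem toDual_add {X : Rep.{0} ℤ G} (f g : X ⟶ Rep.leftRegular ℤ G) :
    toDual (f + g) = toDual f + toDual g := rfl

theorem toDual_zero {X : Rep.{0} ℤ G} : toDual (0 : X ⟶ Rep.leftRegular ℤ G) = 0 := rfl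

theorem toDual_bij {X : Rep.{0} ℤ G} :
    Function.Bijective (toDual : (X ⟶ Rep.leftRegular ℤ G) → _) := by
  constructor
  · intro f g h
    apply (TM G).map_injective
    ext x
    exact (Representation.ofMulActionSelfAsModuleEquiv (k := ℤ) (G := G)).injective
      (LinearMap.congr_fun h x)
  · intro a
    obtain ⟨f, hf⟩ := (TM G).map_surjective (X := X) (Y := Rep.leftRegular ℤ G) (ModuleCat.ofHom
      ((Representation.ofMulActionSelfAsModuleEquiv (k := ℤ) (G := G)).symm.toLinearMap ∘ₗ a))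
    refine ⟨f, LinearMap.ext fun x => ?_⟩
    rw [toDual, hf]
    exact (Representation.ofMulActionSelfAsModuleEquiv (k := ℤ) (G := G)).apply_symm_apply _

theorem exact_elem (S : ShortComplex (Rep.{0} ℤ G)) (hS : S.Exact) (x : (TM G).obj S.X₂) :
    ((TM G).map S.g).hom x = 0 ↔ ∃ y, ((TM G).map S.f).hom y = x := by
  have h := (ShortComplex.moduleCat_exact_iff _).mp (hS.map (TM G))
  refine ⟨h x, ?_⟩
  rintro ⟨y, rfl⟩
  exact (S.map (TM G)).moduleCat_zero_apply y

theorem triv_smul (g : G) (z : (TM G).obj (Rep.trivial ℤ G ℤ)) : og g • z = z := by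
  have := Representation.single_smul (Representation.trivial ℤ G ℤ) 1 g z
  rw [one_smul] at this
  exact this

theorem nonempty_resN (h : IsPD3 G) : Nonempty (ResN G) := by
  obtain ⟨⟨P, hfin, n, hn⟩, hz, ⟨e⟩⟩ := h
  let K := P.complex.linearYonedaObj ℤ (Rep.leftRegular ℤ G)
  have hK : ∀ i j (f : P.complex.X i ⟶ Rep.leftRegular ℤ G),
      (K.d i j).hom f = P.complex.d j i ≫ f := fun _ _ _ => rfl
  let S := K.sc' 2 3 4
  let ι : groupCohomology (Rep.leftRegular ℤ G) 3 ≅ S.moduleCatLeftHomologyData.H :=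
    groupCohomologyIso _ 3 P ≪≫ K.homologyIsoSc' 2 3 4 (by simp) (by simp) ≪≫
      S.moduleCatHomologyIso
  let e' : (LinearMap.ker S.g.hom ⧸ LinearMap.range S.moduleCatToCycles) ≃+ ℤ :=
    ι.toLinearEquiv.symm.toAddEquiv.trans e
  let inv : ∀ {X : Rep.{0} ℤ G}, ((TM G).obj X →ₗ[ZG G] ZG G) → (X ⟶ Rep.leftRegular ℤ G) :=
    fun a => Function.surjInv toDual_bij.2 a
  have hinv : ∀ {X : Rep.{0} ℤ G} (a : (TM G).obj X →ₗ[ZG G] ZG G), toDual (inv a) = a :=
    fun a => Function.surjInv_eq _ a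
  have hcoc : ∀ i (a : (TM G).obj (P.complex.X i) →ₗ[ZG G] ZG G),
      a ∘ₗ ((TM G).map (P.complex.d (i + 1) i)).hom = 0 → (K.d i (i + 1)).hom (inv a) = 0 :=
    fun i a ha => toDual_bij.1 (by rw [hK, toDual_comp, hinv, ha]; rfl)
  refine ⟨{
    M := fun i => (TM G).obj (P.complex.X i)
    D := fun i => ((TM G).map (P.complex.d (i + 1) i)).hom
    fin := hfin
    proj := fun i => ?_
    n := n
    zero := fun i hi => ModuleCat.subsingleton_of_isZero ((TM G).map_isZero (hn i hi))
    eps := ((TM G).map (P.π.f 0)).hom.toAddMonoidHom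
    eps_smul := fun g x => ?_
    eps_surj := ?_
    ex0 := exact_elem _ P.exact₀
    ex := fun i => exact_elem _ (P.exact_succ i)
    co := fun i hi a ha => ?_
    deg := fun a ha => e' (Submodule.Quotient.mk ⟨inv a, hcoc 3 a ha⟩)
    deg_add := fun a b ha hb hab => ?_
    deg_surj := ?_
    deg_ker := fun a ha => ?_ }⟩
  · have : Projective ((TM G).obj (P.complex.X i)) :=
      (Rep.equivalenceModuleMonoidAlgebra.map_projective_iff _).mpr (P.projective i)
    exact ModuleCat.projective_of_module_projective _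
  · exact (map_smul ((TM G).map (P.π.f 0)).hom (og g) x).trans (triv_smul g _)
  · have : Epi ((TM G).map (P.π.f 0)) := inferInstance
    exact (ModuleCat.epi_iff_surjective _).mp this (1 : ℤ)
  · have h1 : K.ExactAt (i + 1) := (K.exactAt_iff_isZero_homology _).mpr
      ((hz (i + 1) hi).of_iso (groupCohomologyIso _ _ P).symm)
    obtain ⟨b, hb⟩ := (ShortComplex.moduleCat_exact_iff _).mp
      ((K.exactAt_iff' i (i + 1) (i + 2) (by simp) (by simp)).mp h1) (inv a) (hcoc _ a ha)
    refine ⟨toDual b, ?_⟩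
    rw [← toDual_comp, ← hinv a, ← hb]; rfl
  · rw [← map_add, ← Submodule.Quotient.mk_add]
    congr 2
    exact Subtype.ext (toDual_bij.1 (by
      change toDual (inv (a + b)) = toDual (inv a + inv b)
      rw [toDual_add, hinv, hinv, hinv]))
  · obtain ⟨y, hy⟩ := e'.surjective 1
    obtain ⟨⟨f, hf⟩, rfl⟩ := Submodule.Quotient.mk_surjective _ y
    have hf' : P.complex.d 4 3 ≫ f = 0 := hf
    refine ⟨toDual f, by rw [← toDual_comp, hf']; rfl, ?_⟩
    rw [← hy]
    congr 2
    exact Subtype.ext (toDual_bij.1 (hinv _))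
  · rw [e'.map_eq_zero_iff, Submodule.Quotient.mk_eq_zero]
    constructor
    · rintro ⟨b, hb⟩
      refine ⟨toDual b, ?_⟩
      have hb' : P.complex.d 3 2 ≫ b = inv a := congrArg Subtype.val hb
      rw [← toDual_comp, hb', hinv]
    · rintro ⟨b, hb⟩
      refine ⟨inv b, Subtype.ext (toDual_bij.1 ?_)⟩
      change toDual (P.complex.d 3 2 ≫ inv b) = toDual (inv a)
      rw [toDual_comp, hinv, hinv, hb]

theorem main (h : IsPD3 G) (hab : ∀ W : Subgroup G, W.FiniteIndex → Finite (Abelianization W))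
    (H : Subgroup G) [H.FiniteIndex] (φ : H →* H) (hφ : Function.Injective φ) :
    Function.Surjective φ := by
  obtain ⟨R⟩ := nonempty_resN h
  obtain ⟨R3⟩ := R.nonempty_res3
  exact R3.cohopf hab H φ hφ

end Pool.Agent.P.MP_50f9b9_al
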