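import Pool.Agent.P.MP_50f9b9_al.Ring

/-! Invariant rational cochains and divisibility of traces. -/

namespace Pool.Agent.P.MP_50f9b9_al

variable {G : Type} [Group G]

/-- `W`-invariant additive maps to the rationals. -/
def Inv (W : Subgroup G) (P : Type) [AddCommGroup P] [Module (ZG G) P] : Submodule ℚ (P →+ ℚ) where
  carrier := {c | ∀ w ∈ W, ∀ x, c (og w • x) = c x}
  add_mem' := fun ha hb w hw x => by simp [ha w hw x, hb w hw x]
  zero_mem' := fun _ _ _ => rfl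
  smul_mem' := fun t c hc w hw x => by simp [hc w hw x]

variable {P Q : Type} [AddCommGroup P] [Module (ZG G) P] [AddCommGroup Q] [Module (ZG G) Q]

/-- Pull back of invariant cochains. -/
def pull (W W' : Subgroup G) (f : P →+ Q)
    (hf : ∀ w' ∈ W', ∃ w ∈ W, ∀ x, f (og w' • x) = og w • f x) : Inv W Q →ₗ[ℚ] Inv W' P where
  toFun c := ⟨c.1.comp f, fun w' hw' x => by
    obtain ⟨w, hw, h⟩ := hf w' hw'
    simp only [AddMonoidHom.comp_apply, h, c.2 w hw]⟩
  map_add' _ _ := rfl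
  map_smul' _ _ := rfl

@[simp] theorem pull_apply (W W' : Subgroup G) (f : P →+ Q)
    (hf : ∀ w' ∈ W', ∃ w ∈ W, ∀ x, f (og w' • x) = og w • f x) (c : Inv W Q) (x : P) :
    (pull W W' f hf c).1 x = c.1 (f x) := rfl

/-- The coboundary. -/
noncomputable def cob (W : Subgroup G) (d : P →ₗ[ZG G] Q) : Inv W Q →ₗ[ℚ] Inv W P :=
  pull W W d.toAddMonoidHom fun w hw => ⟨w, hw, fun x => map_smul d _ x⟩

@[simp] theorem cob_apply (W : Subgroup G) (d : P →ₗ[ZG G] Q) (c : Inv W Q) (x : P) :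
    (cob W d c).1 x = c.1 (d x) := rfl

theorem Inv.ext' {W : Subgroup G} {a b : Inv W P} (h : ∀ x, a.1 x = b.1 x) : a = b :=
  Subtype.ext (AddMonoidHom.ext h)

/-- The invariant cochain attached to an element of the dual module. -/
noncomputable def TT (W : Subgroup G) : (P →ₗ[ZG G] ZG G) →+ Inv W P :=
  AddMonoidHom.mk' (fun a => ⟨(Int.castAddHom ℚ).comp ((tau W).comp a.toAddMonoidHom),
    fun w hw x => by simp [tau_left W hw]⟩) fun a b => Inv.ext' fun x => by simp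

@[simp] theorem TT_apply (W : Subgroup G) (a : P →ₗ[ZG G] ZG G) (x : P) :
    (TT W a).1 x = (tau W (a x) : ℚ) := rfl

theorem TT_rm (W : Subgroup G) (a : P →ₗ[ZG G] ZG G) {w : G} (hw : w ∈ W) :
    TT W (rm a (og w)) = TT W a := Inv.ext' fun x => by simp [tau_right W hw]

theorem TT_comp (W : Subgroup G) (d : P →ₗ[ZG G] Q) (a : Q →ₗ[ZG G] ZG G) :
    TT W (a ∘ₗ d) = cob W d (TT W a) := rfl

theorem Frame.expand_inv (F : Frame G P) (W : Subgroup G) [Fintype (G ⧸ W)] (c : Inv W P) :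
    ∑ p : Fin F.m × (G ⧸ W), c.1 (og p.2.out⁻¹ • F.e p.1) • TT W (rm (F.j p.1) (og p.2.out)) =
      c := by
  refine Inv.ext' fun x => ?_
  rw [F.expand W c.1 c.2 x, ← Fintype.sum_prod_type']
  simp [AddMonoidHom.finsetSum_apply, mul_comm]

theorem Frame.exists_TT_int (F : Frame G P) (W : Subgroup G) [W.FiniteIndex] (c : P →+ ℤ)
    (hc : ∀ w ∈ W, ∀ x, c (og w • x) = c x) : ∃ a : P →ₗ[ZG G] ZG G, ∀ x, tau W (a x) = c x := by
  have := Fintype.ofFinite (G ⧸ W)
  refine ⟨∑ i, ∑ κ : G ⧸ W, c (og κ.out⁻¹ • F.e i) • rm (F.j i) (og κ.out), fun x => ?_⟩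
  rw [F.expand W c hc x]
  simp only [LinearMap.sum_apply, map_sum, LinearMap.smul_apply, map_zsmul, rm_apply,
    smul_eq_mul, mul_comm]

theorem Frame.exists_TT (F : Frame G P) (W : Subgroup G) [W.FiniteIndex] (c : Inv W P) :
    ∃ (N : ℚ) (a : P →ₗ[ZG G] ZG G), N ≠ 0 ∧ TT W a = N • c := by
  classical
  have := Fintype.ofFinite (G ⧸ W)
  let v : Fin F.m × (G ⧸ W) → ℚ := fun p => c.1 (og p.2.out⁻¹ • F.e p.1)
  obtain ⟨N, hN⟩ := IsLocalization.exist_integer_multiples_of_finite (nonZeroDivisors ℤ) v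
  choose z hz using hN
  refine ⟨((N : ℤ) : ℚ), ∑ p, z p • rm (F.j p.1) (og p.2.out), ?_, ?_⟩
  · exact_mod_cast nonZeroDivisors.coe_ne_zero N
  · rw [← F.expand_inv W c, map_sum, Finset.smul_sum]
    refine Finset.sum_congr rfl fun p _ => ?_
    have h1 : ((z p : ℤ) : ℚ) = (N : ℤ) * v p := by simpa using hz p
    rw [map_zsmul, smul_smul, ← Int.cast_smul_eq_zsmul ℚ, h1]

/-- Evaluation at the finitely many relevant points. -/
noncomputable def Frame.ev (F : Frame G P) (W : Subgroup G) :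
    Inv W P →ₗ[ℚ] (Fin F.m × (G ⧸ W) → ℚ) where
  toFun c p := c.1 (og p.2.out⁻¹ • F.e p.1)
  map_add' _ _ := rfl
  map_smul' _ _ := rfl

/-- The left inverse of the evaluation. -/
noncomputable def Frame.rec' (F : Frame G P) (W : Subgroup G) [Fintype (G ⧸ W)] :
    (Fin F.m × (G ⧸ W) → ℚ) →ₗ[ℚ] Inv W P :=
  Fintype.linearCombination ℚ fun p => TT W (rm (F.j p.1) (og p.2.out))

theorem Frame.rec_ev (F : Frame G P) (W : Subgroup G) [Fintype (G ⧸ W)] :
    F.rec' W ∘ₗ F.ev W = LinearMap.id :=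
  LinearMap.ext fun c => F.expand_inv W c

theorem Frame.finite (F : Frame G P) (W : Subgroup G) [W.FiniteIndex] :
    FiniteDimensional ℚ (Inv W P) := by
  have := Fintype.ofFinite (G ⧸ W)
  exact Module.Finite.of_surjective (F.rec' W) fun c =>
    ⟨F.ev W c, LinearMap.congr_fun (F.rec_ev W) c⟩

theorem sum_cosets (W S : Subgroup G) [Fintype (G ⧸ W)] (h : W ≤ S) (N : G → ℤ)
    (hN : ∀ g, ∀ s ∈ S, N (g * s) = N g) : (W.relIndex S : ℤ) ∣ ∑ κ : G ⧸ W, N κ.out := by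
  have : W.FiniteIndex := Subgroup.finiteIndex_of_finite_quotient
  have : S.FiniteIndex := Subgroup.finiteIndex_of_le h
  have := Fintype.ofFinite (G ⧸ S)
  have := Fintype.ofFinite (S ⧸ W.subgroupOf S)
  let e := Subgroup.quotientEquivProdOfLE h
  have h1 : ∀ κ : G ⧸ W, N κ.out = N (e κ).1.out := fun κ => by
    have h2 : (e κ).1 = (κ.out : G ⧸ S) := by
      conv_lhs => rw [← QuotientGroup.out_eq' κ]
      rfl
    have h3 : κ.out⁻¹ * (e κ).1.out ∈ S := by
      rw [← QuotientGroup.eq, QuotientGroup.out_eq', h2]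
    rw [← hN _ _ h3, mul_inv_cancel_left]
  simp only [h1]
  rw [Equiv.sum_comp e (fun p => N p.1.out), Fintype.sum_prod_type]
  simp only [Finset.sum_const, Finset.card_univ, nsmul_eq_mul, ← Finset.mul_sum]
  rw [Subgroup.relIndex, Subgroup.index, Nat.card_eq_fintype_card]
  exact dvd_mul_right _ _

theorem Frame.trace_dvd (F : Frame G P) (W S : Subgroup G) [W.FiniteIndex] (h : W ≤ S)
    (hN : ∀ s ∈ S, ∀ x, s⁻¹ * x * s ∈ W ↔ x ∈ W) (ψ : S → G) (hψ : ∀ s : S, ψ s * (s : G)⁻¹ ∈ W)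
    (f : P →+ P) (hf : ∀ (s : S) x, f (og (s : G) • x) = og (ψ s) • f x)
    (hf' : ∀ w' ∈ W, ∃ w ∈ W, ∀ x, f (og w' • x) = og w • f x) :
    ∃ n : ℤ, LinearMap.trace ℚ _ (pull W W f hf') = ((W.relIndex S * n : ℤ) : ℚ) := by
  classical
  have := Fintype.ofFinite (G ⧸ W)
  have := F.finite W
  let N : Fin F.m → G → ℤ := fun i g => tau W (F.j i (f (og g⁻¹ • F.e i)) * og g)
  have h1 : LinearMap.trace ℚ _ (pull W W f hf') =
      ((∑ i, ∑ κ : G ⧸ W, N i κ.out : ℤ) : ℚ) := by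
    rw [← LinearMap.comp_id (pull W W f hf'), ← F.rec_ev W, ← LinearMap.comp_assoc,
      LinearMap.trace_comp_comm', LinearMap.trace_eq_matrix_trace ℚ (Pi.basisFun ℚ _),
      Matrix.trace, ← Fintype.sum_prod_type', Int.cast_sum]
    refine Finset.sum_congr rfl fun p _ => ?_
    simp [Frame.rec', Frame.ev, N]
  have h2 : ∀ i, (W.relIndex S : ℤ) ∣ ∑ κ : G ⧸ W, N i κ.out := fun i =>
    sum_cosets W S h (N i) fun g s hs => by
      have e1 := hf ⟨s, hs⟩⁻¹ (og g⁻¹ • F.e i)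
      have e2 := tau_eq W (ψ ⟨s, hs⟩⁻¹) s 1 1 (fun x => by
        have h3 : ψ ⟨s, hs⟩⁻¹ * s ∈ W := by simpa using hψ ⟨s, hs⟩⁻¹
        rw [one_mul, mul_one, ← hN s hs x, ← W.mul_mem_cancel_left h3 (y := s⁻¹ * x * s)]
        simp [mul_assoc]) (F.j i (f (og g⁻¹ • F.e i)) * og g)
      simp only [N, mul_inv_rev, og_mul, mul_smul]
      erw [e1]
      simpa [mul_assoc] using e2
  obtain ⟨n, hn⟩ := Finset.dvd_sum (s := Finset.univ) fun i _ => h2 i
  exact ⟨n, by rw [h1, hn]⟩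

theorem hom_zero (W : Type) [Group W] [Finite (Abelianization W)] {V : Type} [AddCommGroup V]
    [Module ℚ V] (κ : W → V) (hκ : ∀ x y, κ (x * y) = κ x + κ y) (x : W) : κ x = 0 := by
  let f : W →* Multiplicative V := MonoidHom.mk' (fun x => Multiplicative.ofAdd (κ x))
    fun x y => by rw [hκ]; rfl
  have h1 : f x ^ Nat.card (Abelianization W) = 1 := by
    rw [← Abelianization.lift_apply_of f x, ← map_pow, pow_card_eq_one', map_one]
  have h2 : (Nat.card (Abelianization W)) • κ x = 0 := h1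
  rw [← Nat.cast_smul_eq_nsmul ℚ] at h2
  exact (smul_eq_zero.mp h2).resolve_left (Nat.cast_ne_zero.mpr Nat.card_pos.ne')

end Pool.Agent.P.MP_50f9b9_al
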