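import Mathlib

/-! Poincare duality groups of dimension three. -/

namespace Pool.Agent.P.MP_50f9b9_al

open CategoryTheory

/-- `G` is of type `FP` over the integers: the trivial module has a projective resolution of
finite length by finitely generated modules over the integral group ring. -/
def IsFP (G : Type) [Group G] : Prop :=
  ∃ P : ProjectiveResolution (Rep.trivial ℤ G ℤ),
    (∀ i, Module.Finite (MonoidAlgebra ℤ G) (Rep.toModuleMonoidAlgebra.obj (P.complex.X i))) ∧
      ∃ n : ℕ, ∀ i, n < i → Limits.IsZero (P.complex.X i)

/-- `G` is a `PD₃`-group: it is of type `FP`, its cohomology with coefficients in the integral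
group ring vanishes in degrees other than three and is infinite cyclic in degree three. -/
def IsPD3 (G : Type) [Group G] : Prop :=
  IsFP G ∧ (∀ i, i ≠ 3 → Limits.IsZero (groupCohomology (Rep.leftRegular ℤ G) i)) ∧
    Nonempty (groupCohomology (Rep.leftRegular ℤ G) 3 ≃+ ℤ)

end Pool.Agent.P.MP_50f9b9_al
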