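import Pool.Agent.P.MP_50f9b9_al.Sol

/-! Endomorphisms of finite groups: the eventual kernel is bounded. -/

namespace Pool.Agent.P.MP_50f9b9_al

open Subgroup
open scoped commutatorElement

theorem exists_idem_pow (M : Type) [Monoid M] [Finite M] (f : M) :
    ∃ n : ℕ, 1 ≤ n ∧ f ^ n * f ^ n = f ^ n := by
  obtain ⟨i, j, hij, h⟩ := Finite.exists_ne_map_eq_of_infinite (fun n : ℕ => f ^ n)
  wlog hlt : i < j generalizing i j
  · exact this j i hij.symm h.symm (by omega)
  obtain ⟨p, rfl⟩ := Nat.exists_eq_add_of_lt hlt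
  have h1 : ∀ t : ℕ, f ^ (i + t * (p + 1)) = f ^ i := by
    intro t
    induction t with
    | zero => simp
    | succ t ih =>
      have : i + (t + 1) * (p + 1) = (i + p + 1) + t * (p + 1) := by ring
      rw [this, pow_add, ← h, ← pow_add, ih]
  refine ⟨(i + 1) * (p + 1), by nlinarith, ?_⟩
  obtain ⟨c, hc⟩ : ∃ c, (i + 1) * (p + 1) = i + c := ⟨i * p + p + 1, by ring⟩
  rw [← pow_add]
  calc f ^ ((i + 1) * (p + 1) + (i + 1) * (p + 1))
      = f ^ ((i + (i + 1) * (p + 1)) + c) := by congr 1; omega
    _ = f ^ ((i + 1) * (p + 1)) := by rw [pow_add, h1, ← pow_add, hc]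

theorem nil_range_aux (A : Type) [Group A] [Finite A] (g : Monoid.End A) (n : ℕ)
    (hn : ∀ x, (g ^ n) x = 1) (i : ℕ) :
    (g ^ i).range = ⊥ ∨ Nat.card (g ^ i).range + i ≤ Nat.card A := by
  induction i with
  | zero =>
    right
    exact Subgroup.card_le_card_group (g ^ 0).range
  | succ i ih =>
    have hle : (g ^ (i + 1)).range ≤ (g ^ i).range := by
      rintro _ ⟨x, rfl⟩
      exact ⟨g x, by rw [pow_succ]; rfl⟩
    rcases ih with ih | ih
    · left; exact le_bot_iff.mp (ih ▸ hle)
    by_cases he : (g ^ (i + 1)).range = (g ^ i).range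
    · left
      have hall : ∀ t, (g ^ (i + t)).range = (g ^ i).range := by
        intro t
        induction t with
        | zero => rfl
        | succ t iht =>
          have e1 : ∀ m : ℕ, (g ^ (m + 1)).range = ((g ^ m).range).map g := by
            intro m
            rw [pow_succ', MonoidHom.map_range]; rfl
          rw [← add_assoc, e1, iht, ← e1, he]
      rw [he, ← hall n, eq_bot_iff]
      rintro _ ⟨x, rfl⟩
      rw [add_comm, pow_add]
      exact hn _
    · right
      have : Nat.card (g ^ (i + 1)).range < Nat.card (g ^ i).range :=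
        Set.Finite.card_lt_card (Set.toFinite _)
          (show (g ^ (i + 1)).range < (g ^ i).range from lt_of_le_of_ne hle he)
      omega

theorem nil_pow_card (A : Type) [Group A] [Finite A] (g : Monoid.End A) (n : ℕ)
    (hn : ∀ x, (g ^ n) x = 1) (h : ℕ) (hh : Nat.card A ≤ h) (x : A) : (g ^ h) x = 1 := by
  rcases nil_range_aux A g n hn h with h1 | h1
  · have : (g ^ h) x ∈ (g ^ h).range := ⟨x, rfl⟩
    rwa [h1] at this
  · have : 0 < Nat.card (g ^ h).range := Nat.card_pos
    omega

/-- A nilpotent endomorphism with small kernels on a soluble group with small abelianization. -/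
theorem nil_bound (d h : ℕ) : ∃ M : ℕ, ∀ (C : Type) [Group C] [Finite C] [Group.IsSolvable C]
    (g : Monoid.End C) (n : ℕ), (∀ x, (g ^ n) x = 1) →
    (∀ j, Nat.card (g ^ j).ker ≤ d ^ j) → Nat.card (Abelianization C) ≤ h → Nat.card C ≤ M := by
  obtain ⟨M, hM⟩ := sol_bound (d ^ h)
  refine ⟨M, fun C _ _ _ g n hn hk hab => hM C fun j => ?_⟩
  let a : Monoid.End (Abelianization C) := Abelianization.map g
  have ha : ∀ (m : ℕ) (x : C), (a ^ m) (Abelianization.of x) = Abelianization.of ((g ^ m) x) := by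
    intro m
    induction m with
    | zero => intro x; rfl
    | succ m ih => intro x; rw [pow_succ, pow_succ]; exact ih (g x)
  have ha1 : ∀ y, (a ^ n) y = 1 := by
    intro y
    obtain ⟨x, rfl⟩ : ∃ x, Abelianization.of x = y := QuotientGroup.mk_surjective y
    rw [ha, hn, map_one]
  have h1 : ∀ x, (g ^ h) x ∈ commutator C := by
    intro x
    rw [← Abelianization.ker_of, MonoidHom.mem_ker, ← ha]
    exact nil_pow_card _ a n ha1 h hab _
  have h2 : ∀ i : ℕ, (derivedSeries C i).map (g ^ h : Monoid.End C) ≤ derivedSeries C (i + 1) := by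
    intro i
    induction i with
    | zero => rintro _ ⟨x, -, rfl⟩; exact h1 x
    | succ i ih =>
      rw [derivedSeries_succ, map_commutator, derivedSeries_succ _ (i + 1)]
      exact commutator_mono ih ih
  have h3 : ∀ i : ℕ, (g ^ (h * i)).range ≤ derivedSeries C i := by
    intro i
    induction i with
    | zero => exact le_top
    | succ i ih =>
      rintro _ ⟨x, rfl⟩
      apply h2
      refine ⟨(g ^ (h * i)) x, ih ⟨x, rfl⟩, ?_⟩
      rw [mul_add, mul_one, add_comm, pow_add]; rfl
  have h4 : (g ^ (h * j)).range.index = Nat.card (g ^ (h * j)).ker := by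
    have e1 := (g ^ (h * j)).range.index_mul_card
    have e2 := (g ^ (h * j)).ker.index_mul_card
    rw [index_ker, mul_comm] at e2
    exact Nat.eq_of_mul_eq_mul_right Nat.card_pos (e1.trans e2.symm)
  calc (derivedSeries C j).index ≤ (g ^ (h * j)).range.index :=
        Nat.le_of_dvd (Nat.pos_of_ne_zero index_ne_zero_of_finite) (index_dvd_of_le (h3 j))
    _ ≤ d ^ (h * j) := h4 ▸ hk _
    _ = (d ^ h) ^ j := pow_mul _ _ _

section
variable {F : Type} [Group F] (f : Monoid.End F) (K : Subgroup F)

theorem pow_mem_of_inv (hfK : ∀ x ∈ K, f x ∈ K) (j : ℕ) : ∀ x ∈ K, (f ^ j) x ∈ K := by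
  induction j with
  | zero => intro x hx; exact hx
  | succ j ih => intro x hx; rw [pow_succ]; exact ih _ (hfK x hx)

theorem comm_ker_step (hfK : ∀ x ∈ K, f x ∈ K) (hc : ∀ x ∈ K, ∀ c, f c = 1 → Commute x c)
    (j : ℕ) (x : F) (hx : x ∈ K) (c : F) (hcj : (f ^ (j + 1)) c = 1) : (f ^ j) ⁅x, c⁆ = 1 := by
  rw [map_commutatorElement, commutatorElement_eq_one_iff_commute]
  apply hc _ (pow_mem_of_inv f K hfK j x hx)
  rw [pow_succ'] at hcj
  exact hcj

theorem commute_of_coprime [Finite F] (hfK : ∀ x ∈ K, f x ∈ K)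
    (hc : ∀ x ∈ K, ∀ c, f c = 1 → Commute x c) (n : ℕ)
    (hcop : Nat.Coprime (Nat.card (f ^ n).range) (Nat.card (f ^ n).ker))
    (q : F) (hq : q ∈ K) (hq' : q ∈ (f ^ n).range) (c : F) (hcn : (f ^ n) c = 1) :
    Commute q c := by
  have key : ∀ j, j ≤ n → ∀ c, (f ^ j) c = 1 → Commute q c := by
    intro j
    induction j with
    | zero =>
      intro _ c hc0
      have : c = 1 := hc0
      rw [this]; exact Commute.one_right q
    | succ j ih =>
      intro hj c hcj
      have hδ := comm_ker_step f K hfK hc j q hq c hcj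
      have hcomm := ih (by omega) _ hδ
      set δ := ⁅q, c⁆ with hδd
      have hpow : ∀ m : ℕ, q ^ m * c * (q ^ m)⁻¹ = δ ^ m * c := by
        intro m
        induction m with
        | zero => simp
        | succ m ihm =>
          have e1 : q ^ (m + 1) * c * (q ^ (m + 1))⁻¹ = q * (q ^ m * c * (q ^ m)⁻¹) * q⁻¹ := by
            rw [pow_succ']; group
          rw [e1, ihm, ← mul_assoc, (hcomm.pow_right m).eq, pow_succ, hδd, commutatorElement_def]
          group
      have hq1 : q ^ Nat.card (f ^ n).range = 1 := by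
        have := pow_card_eq_one' (G := (f ^ n).range) (x := ⟨q, hq'⟩)
        exact congrArg Subtype.val this
      have hd1 : δ ^ Nat.card (f ^ n).range = 1 := by
        have := hpow (Nat.card (f ^ n).range)
        rw [hq1] at this
        simpa using this.symm
      have hδn : δ ∈ (f ^ n).ker := by
        obtain ⟨t, ht⟩ := Nat.exists_eq_add_of_le (show j ≤ n by omega)
        rw [MonoidHom.mem_ker, ht, add_comm, pow_add]
        change (f ^ t) ((f ^ j) δ) = 1
        rw [hδ, map_one]
      have hd2 : δ ^ Nat.card (f ^ n).ker = 1 := by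
        have := pow_card_eq_one' (G := (f ^ n).ker) (x := ⟨δ, hδn⟩)
        exact congrArg Subtype.val this
      have : δ = 1 := by
        have := pow_gcd_eq_one.mpr ⟨hd1, hd2⟩
        rwa [hcop, pow_one] at this
      exact commutatorElement_eq_one_iff_commute.mp this
  exact key n le_rfl c hcn

end

/-- The main estimate for endomorphisms of finite groups. -/
theorem fin_bound (d h : ℕ) : ∃ M : ℕ, ∀ (F : Type) [Group F] [Finite F] (f : Monoid.End F)
    (K : Subgroup F) [K.Normal] (n : ℕ), f ^ n * f ^ n = f ^ n → (∀ x ∈ K, f x ∈ K) →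
    (∀ x ∈ K, ∀ c, f c = 1 → Commute x c) →
    Nat.Coprime (Nat.card (f ^ n).range) (Nat.card (f ^ n).ker) →
    (∀ j, Nat.card (f ^ j).ker ≤ d ^ j) → Nat.card (Abelianization K) ≤ h →
    Nat.card ((f ^ n).ker ⊓ K : Subgroup F) ≤ M := by
  obtain ⟨M, hM⟩ := nil_bound d h
  refine ⟨M, fun F _ _ f K _ n he hfK hc hcop hk hab => ?_⟩
  have he' : ∀ x, (f ^ n) ((f ^ n) x) = (f ^ n) x := fun x => DFunLike.congr_fun he x
  set C : Subgroup F := (f ^ n).ker ⊓ K with hC
  have hfC : ∀ x ∈ C, f x ∈ C := by
    intro x hx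
    refine ⟨?_, hfK x hx.2⟩
    have h1 : (f ^ n) x = 1 := hx.1
    change (f ^ n * f) x = 1
    rw [← pow_succ, pow_succ']
    change f ((f ^ n) x) = 1
    rw [h1, map_one]
  let g : Monoid.End C := (MonoidHom.comp f C.subtype).codRestrict C fun x => hfC x x.2
  have hg : ∀ (j : ℕ) (x : C), ((g ^ j) x : F) = (f ^ j) x := by
    intro j
    induction j with
    | zero => intro x; rfl
    | succ j ih => intro x; rw [pow_succ, pow_succ]; exact ih (g x)
  have hsol : Group.IsSolvable C := by
    have key : ∀ i, i ≤ n → derivedSeries C i ≤ (g ^ (n - i)).ker := by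
      intro i
      induction i with
      | zero =>
        intro _ x _
        exact Subtype.ext ((hg n x).trans x.2.1)
      | succ i ih =>
        intro hi
        rw [derivedSeries_succ, commutator_le]
        intro x _ y hy
        apply Subtype.ext
        refine (hg _ _).trans ?_
        apply comm_ker_step f K hfK hc _ _ x.2.2
        have h1 : (g ^ (n - i)) y = 1 := ih (by omega) hy
        have h2 : n - (i + 1) + 1 = n - i := by omega
        rw [h2, ← hg, h1]; rfl
    refine ⟨⟨n, eq_bot_iff.mpr fun x hx => ?_⟩⟩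
    have := key n le_rfl hx
    rw [Nat.sub_self] at this
    exact this
  have hmem : ∀ x ∈ K, x * ((f ^ n) x)⁻¹ ∈ C := by
    intro x hx
    refine ⟨?_, K.mul_mem hx (K.inv_mem (pow_mem_of_inv f K hfK n x hx))⟩
    change (f ^ n) _ = 1
    rw [map_mul, map_inv, he', mul_inv_cancel]
  let π : K →* C := MonoidHom.mk' (fun x => ⟨x * ((f ^ n) x)⁻¹, hmem x x.2⟩) (by
    intro x y
    apply Subtype.ext
    have hcm := commute_of_coprime f K hfK hc n hcop ((f ^ n) x)
      (pow_mem_of_inv f K hfK n x x.2) ⟨x, rfl⟩ _ (hmem y y.2).1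
    change (x : F) * y * ((f ^ n) ((x : F) * y))⁻¹ =
      (x : F) * ((f ^ n) x)⁻¹ * ((y : F) * ((f ^ n) y)⁻¹)
    rw [mul_assoc (x : F) ((f ^ n) x)⁻¹, hcm.inv_left.eq, map_mul]
    group)
  have hπ : Function.Surjective π := by
    intro c
    refine ⟨⟨c, c.2.2⟩, Subtype.ext ?_⟩
    have h1 : (f ^ n) c = 1 := c.2.1
    change (c : F) * ((f ^ n) c)⁻¹ = c
    rw [h1]; simp
  apply hM C g n
  · intro x
    exact Subtype.ext ((hg n x).trans x.2.1)
  · intro j
    refine le_trans ?_ (hk j)
    refine Nat.card_le_card_of_injective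
      (fun x : (g ^ j).ker => (⟨(x.1 : F), ?_⟩ : (f ^ j).ker)) ?_
    · have h1 : (g ^ j) x.1 = 1 := x.2
      exact (hg j x.1).symm.trans (congrArg Subtype.val h1)
    · intro x y hxy
      have h1 : ((x.1 : C) : F) = ((y.1 : C) : F) :=
        congrArg (fun z : (f ^ j).ker => (z : F)) hxy
      exact Subtype.ext (Subtype.ext h1)
  · refine le_trans (Nat.card_le_card_of_surjective (Abelianization.map π) ?_) hab
    intro y
    obtain ⟨x, rfl⟩ : ∃ x, Abelianization.of x = y := QuotientGroup.mk_surjective y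
    obtain ⟨z, rfl⟩ := hπ x
    exact ⟨Abelianization.of z, rfl⟩

end Pool.Agent.P.MP_50f9b9_al
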