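import Pool.Agent.P.MP_50f9b9_al.Fin

/-! The group theoretic reduction: a coprimality property forces cohopficity. -/

namespace Pool.Agent.P.MP_50f9b9_al

open Subgroup

/-- Intersection of the kernels of all actions on at most `k` points. -/
def Wk (H : Type) [Group H] (k : ℕ) : Subgroup H :=
  ⨅ p : (Σ m : Fin (k + 1), H →* Equiv.Perm (Fin m)), p.2.ker

section
variable {H : Type} [Group H]

instance Wk_normal (k : ℕ) : (Wk H k).Normal :=
  Subgroup.normal_iInf_normal fun _ => inferInstance

theorem Wk_le_ker {k : ℕ} {X : Type} [Finite X] (hX : Nat.card X ≤ k) (g : H →* Equiv.Perm X) :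
    Wk H k ≤ g.ker := by
  intro x hx
  let e := Finite.equivFin X
  have h1 := Subgroup.mem_iInf.mp hx
    ⟨⟨Nat.card X, by omega⟩, (e.permCongrHom : Equiv.Perm X →* _).comp g⟩
  rw [MonoidHom.mem_ker] at h1 ⊢
  exact e.permCongrHom.injective (h1.trans (map_one _).symm)

theorem Wk_le {k : ℕ} (S : Subgroup H) [S.FiniteIndex] (h : S.index ≤ k) : Wk H k ≤ S :=
  (Wk_le_ker h (MulAction.toPermHom H (H ⧸ S))).trans (S.normalCore_eq_ker ▸ S.normalCore_le)

theorem Wk_inv (k : ℕ) (ψ : H →* H) : ∀ x ∈ Wk H k, ψ x ∈ Wk H k := by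
  intro x hx
  refine Subgroup.mem_iInf.mpr fun p => ?_
  exact Subgroup.mem_iInf.mp hx ⟨p.1, p.2.comp ψ⟩

theorem finite_hom [Group.FG H] (X : Type) [Group X] [Finite X] : Finite (H →* X) := by
  obtain ⟨S, hS⟩ := Group.fg_def.mp (inferInstance : Group.FG H)
  refine Finite.of_injective (fun (f : H →* X) (s : S) => f s) ?_
  intro f g hfg
  exact MonoidHom.eq_of_eqOn_dense hS fun x hx => congrFun hfg ⟨x, hx⟩

instance Wk_finiteIndex [Group.FG H] (k : ℕ) : (Wk H k).FiniteIndex := by
  have : ∀ m : Fin (k + 1), Finite (H →* Equiv.Perm (Fin m)) := fun m => finite_hom _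
  exact Subgroup.finiteIndex_iInf fun _ => inferInstance

theorem pow_injective_end (φ : Monoid.End H) (hφ : Function.Injective φ) (j : ℕ) :
    Function.Injective (φ ^ j : Monoid.End H) := by
  induction j with
  | zero => exact fun _ _ h => h
  | succ j ih => rw [pow_succ]; exact ih.comp hφ

theorem index_range_pow (φ : Monoid.End H) (hφ : Function.Injective φ) (j : ℕ) :
    (φ ^ j).range.index = φ.range.index ^ j := by
  induction j with
  | zero =>
    have : (φ ^ 0).range = ⊤ := eq_top_iff.mpr fun x _ => ⟨x, rfl⟩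
    rw [this]; simp
  | succ j ih =>
    have e1 : (φ ^ (j + 1)).range = ((φ ^ j).range).map φ := by
      rw [pow_succ', MonoidHom.map_range]; rfl
    rw [e1, index_map_of_injective _ hφ, ih, pow_succ]

theorem card_ker_eq_index_range {F : Type} [Group F] [Finite F] (g : F →* F) :
    Nat.card g.ker = g.range.index := by
  have e1 := g.range.index_mul_card
  have e2 := g.ker.index_mul_card
  rw [index_ker, mul_comm] at e2
  exact Nat.eq_of_mul_eq_mul_right Nat.card_pos (e2.trans e1.symm)

theorem surj_of_cop [Group.FG H] (H0 : Subgroup H) [H0.FiniteIndex]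
    (hab : ∀ S : Subgroup H, S.FiniteIndex → Finite (Abelianization S))
    (hcop : ∀ (W : Subgroup H), W.Normal → W.FiniteIndex → W ≤ H0 → ∀ ψ : H →* H,
      Function.Injective ψ → ψ.range.FiniteIndex → (∀ x ∈ W, ψ x ∈ W) → ∀ S : Subgroup H,
      W ≤ S → (∀ s ∈ S, ψ s * s⁻¹ ∈ W) → Nat.Coprime (W.relIndex S) ψ.range.index)
    (φ₀ : H →* H) (hφ : Function.Injective φ₀) [hfi : φ₀.range.FiniteIndex] :
    Function.Surjective φ₀ := by
  let φ : Monoid.End H := φ₀
  set d := φ₀.range.index with hd
  by_contra hns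
  have hd2 : 2 ≤ d := by
    have h0 : d ≠ 0 := hfi.index_ne_zero
    have h1 : d ≠ 1 := fun h => hns (MonoidHom.range_eq_top.mp (index_eq_one.mp h))
    omega
  have hidx : ∀ j, (φ ^ j).range.index = d ^ j := index_range_pow φ hφ
  have hfin : ∀ j, (φ ^ j).range.FiniteIndex := fun j => ⟨by rw [hidx]; positivity⟩
  let W0 := Wk H d
  have := hab W0 inferInstance
  obtain ⟨M, hM⟩ := fin_bound d (Nat.card (Abelianization W0))
  obtain ⟨j, hj⟩ : ∃ j, W0.index * M < d ^ j :=
    ⟨_, Nat.lt_pow_self (by omega)⟩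
  have := hfin j
  let T : Subgroup H := H0 ⊓ W0 ⊓ (φ ^ j).range
  let W := Wk H T.index
  have hWT : W ≤ T := Wk_le T le_rfl
  let q := QuotientGroup.mk' W
  have hq : Function.Surjective q := QuotientGroup.mk'_surjective W
  let f : Monoid.End (H ⧸ W) := QuotientGroup.map W W φ₀ (Wk_inv _ φ₀)
  have hf : ∀ (m : ℕ) (x : H), (f ^ m) (q x) = q ((φ ^ m) x) := by
    intro m
    induction m with
    | zero => intro x; rfl
    | succ m ih => intro x; rw [pow_succ, pow_succ]; exact ih (φ x)
  have hrange : ∀ m : ℕ, (f ^ m).range = (φ ^ m).range.map q := by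
    intro m
    ext y
    constructor
    · rintro ⟨x, rfl⟩
      obtain ⟨x, rfl⟩ := hq x
      exact ⟨_, ⟨x, rfl⟩, (hf m x).symm⟩
    · rintro ⟨_, ⟨x, rfl⟩, rfl⟩
      exact ⟨q x, hf m x⟩
  have hker : ∀ m : ℕ, Nat.card (f ^ m).ker ∣ d ^ m := by
    intro m
    rw [card_ker_eq_index_range, hrange, ← hidx]
    exact index_map_dvd _ hq
  have : Finite (Monoid.End (H ⧸ W)) := Finite.of_injective _ DFunLike.coe_injective
  obtain ⟨n, hn1, hn⟩ := exists_idem_pow _ f
  let K := W0.map q
  have : K.Normal := Subgroup.Normal.map inferInstance q hq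
  have hb := hM (H ⧸ W) f K n hn (by
      rintro _ ⟨x, hx, rfl⟩
      exact ⟨φ₀ x, Wk_inv _ φ₀ x hx, rfl⟩) (by
      rintro _ ⟨x, hx, rfl⟩ c hc
      let g : H →* Equiv.Perm f.ker :=
        (MulAut.toPerm _).comp ((MulAut.conjNormal (H := f.ker)).comp q)
      have h1 : Nat.card f.ker ≤ d := by
        have := Nat.le_of_dvd (by positivity) (hker 1)
        simpa using this
      have h2 : g x = 1 := Wk_le_ker h1 g hx
      have h3 : ((g x ⟨c, hc⟩ : f.ker) : H ⧸ W) = c := by rw [h2]; rfl
      have h4 : q x * c * (q x)⁻¹ = c := h3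
      exact mul_inv_eq_iff_eq_mul.mp h4) (by
      have h1 := hcop W inferInstance inferInstance (fun x hx => (hWT hx).1.1) (φ ^ n)
        (pow_injective_end φ hφ n) (hfin n) (Wk_inv _ _) ((f ^ n).range.comap q)
        (fun x hx => by
          have : q x = 1 := (QuotientGroup.eq_one_iff x).mpr hx
          rw [mem_comap, this]; exact one_mem _)
        (by
          rintro s ⟨y, hy⟩
          rw [← QuotientGroup.eq_one_iff]
          change q _ = 1
          rw [map_mul, map_inv, mul_inv_eq_one]
          refine (hf n s).symm.trans ?_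
          rw [← hy]
          exact DFunLike.congr_fun hn y)
      have h2 : W.relIndex ((f ^ n).range.comap q) = Nat.card (f ^ n).range := by
        have e := relIndex_ker ((f ^ n).range.comap q) q
        rw [map_comap_eq_self_of_surjective hq, QuotientGroup.ker_mk'] at e
        exact e
      rw [h2, hidx] at h1
      exact h1.coprime_dvd_right (hker n))
    (fun m => Nat.le_of_dvd (by positivity) (hker m)) (by
      refine Nat.card_le_card_of_surjective (Abelianization.map (q.subgroupMap W0)) ?_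
      intro y
      obtain ⟨x, rfl⟩ : ∃ x, Abelianization.of x = y := QuotientGroup.mk_surjective y
      obtain ⟨z, rfl⟩ := q.subgroupMap_surjective W0 x
      exact ⟨Abelianization.of z, rfl⟩)
  have hlow : d ^ j ≤ Nat.card (f ^ n).ker := by
    have hpw : ∀ t : ℕ, (f ^ n) ^ (t + 1) = f ^ n := by
      intro t
      induction t with
      | zero => simp
      | succ t ih => rw [pow_succ, ih, hn]
    have hle : (f ^ n).range ≤ (f ^ j).range := by
      rintro _ ⟨x, rfl⟩
      obtain ⟨c, hc⟩ : ∃ c, n * (j + 1) = j + c := ⟨n * (j + 1) - j, by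
        have : j ≤ n * (j + 1) := by nlinarith
        omega⟩
      refine ⟨(f ^ c) x, ?_⟩
      rw [← hpw j, ← pow_mul, hc, pow_add]; rfl
    rw [card_ker_eq_index_range, ← hidx, ← index_map_eq (φ ^ j).range hq (by
      rw [QuotientGroup.ker_mk']; exact fun x hx => (hWT hx).2), ← hrange]
    exact Nat.le_of_dvd (Nat.pos_of_ne_zero index_ne_zero_of_finite) (index_dvd_of_le hle)
  have hup : Nat.card (f ^ n).ker ≤ W0.index * M := by
    have e1 : Nat.card ((f ^ n).ker ⊓ K : Subgroup _) * K.relIndex (f ^ n).ker =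
        Nat.card (f ^ n).ker := by
      rw [← inf_relIndex_left, ← relIndex_bot_left, ← relIndex_bot_left]
      exact relIndex_mul_relIndex _ _ _ bot_le inf_le_left
    have e2 : K.relIndex (f ^ n).ker ≤ W0.index :=
      (Nat.le_of_dvd (Nat.pos_of_ne_zero index_ne_zero_of_finite)
        (relIndex_dvd_index_of_normal K _)).trans
        (Nat.le_of_dvd (Nat.pos_of_ne_zero FiniteIndex.index_ne_zero) (index_map_dvd _ hq))
    rw [← e1, mul_comm]
    exact Nat.mul_le_mul e2 hb
  omega

end

end Pool.Agent.P.MP_50f9b9_al
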