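import Pool.Agent.P.MP_50f9b9_al.Res
import Pool.Agent.P.MP_50f9b9_al.Grp

/-! The Lefschetz congruence and the finite index case of cohopficity. -/

namespace Pool.Agent.P.MP_50f9b9_al

variable {G : Type} [Group G]

theorem tau_sum (W W' : Subgroup G) (h : W' ≤ W) [Fintype (W ⧸ W'.subgroupOf W)] (r : ZG G) :
    tau W r = ∑ κ : W ⧸ W'.subgroupOf W, tau W' (r * og (κ.out : G)) := by
  classical
  have := hom_ext (f := tau W) (g := ∑ κ : W ⧸ W'.subgroupOf W,
      (tau W').comp (AddMonoidHom.mulRight (og (κ.out : G)))) (fun g => by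
    simp only [AddMonoidHom.finsetSum_apply, AddMonoidHom.comp_apply, AddMonoidHom.coe_mulRight,
      ← og_mul]
    by_cases hg : g ∈ W
    · have h1 : ∀ κ : W ⧸ W'.subgroupOf W, g * κ.out ∈ W' ↔
          (((⟨g, hg⟩ : W)⁻¹ : W) : W ⧸ W'.subgroupOf W) = κ := fun κ =>
        (mk_inv_eq_iff (W'.subgroupOf W) ⟨g, hg⟩ κ).symm
      rw [tau_og_mem W hg, Finset.sum_eq_single (((⟨g, hg⟩ : W)⁻¹ : W) : W ⧸ W'.subgroupOf W),
        tau_og_mem _ ((h1 _).mpr rfl)]
      · intro κ _ hκ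
        exact tau_og_notMem _ fun e => hκ ((h1 κ).mp e).symm
      · simp
    · rw [tau_og_notMem W hg, Finset.sum_eq_zero]
      intro κ _
      exact tau_og_notMem _ fun e => hg ((W.mul_mem_cancel_right κ.out.2).mp (h e)))
  simpa [AddMonoidHom.finsetSum_apply] using DFunLike.congr_fun this r

namespace Res3

variable (R : Res3 G)

theorem key (S W W' : Subgroup G) [W.FiniteIndex] [W'.FiniteIndex] [Finite (Abelianization W)]
    (hWS : W ≤ S) (hN : ∀ s ∈ S, ∀ x, s⁻¹ * x * s ∈ W ↔ x ∈ W) (hW' : W' ≤ W) (hWp : W ≤ R.Gp)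
    (ψ : S → G) (hψ : ∀ a b, ψ (a * b) = ψ a * ψ b) (h1 : ∀ s : S, (s : G) ∈ W → ψ s ∈ W')
    (h2 : ∀ s : S, ψ s * (s : G)⁻¹ ∈ W) :
    ∃ t : ℤ, (W.relIndex S : ℤ) ∣ 1 - W'.relIndex W * t := by
  obtain ⟨f0, f1, f2, f3, a0, a1, a2, a3, b0, b1, b2, b3⟩ := R.exists_chain S ψ hψ
  have inv' : ∀ {P : Type} [AddCommGroup P] [Module (ZG G) P] (f : P →+ P),
      (∀ (s : S) x, f (og (s : G) • x) = og (ψ s) • f x) →
      ∀ w ∈ W, ∃ w' ∈ W', ∀ x, f (og w • x) = og w' • f x := fun f a w hw =>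
    ⟨ψ ⟨w, hWS hw⟩, h1 _ hw, a ⟨w, hWS hw⟩⟩
  have inv : ∀ {P : Type} [AddCommGroup P] [Module (ZG G) P] (f : P →+ P),
      (∀ (s : S) x, f (og (s : G) • x) = og (ψ s) • f x) →
      ∀ w ∈ W, ∃ w' ∈ W, ∀ x, f (og w • x) = og w' • f x := fun f a w hw =>
    ⟨ψ ⟨w, hWS hw⟩, hW' (h1 _ hw), a ⟨w, hWS hw⟩⟩
  have := R.F0.finite W
  have := R.F1.finite W
  have := R.F2.finite W
  have := R.F3.finite W
  have := Fintype.ofFinite (W ⧸ W'.subgroupOf W)
  obtain ⟨a, ha⟩ := R.F3.exists_TT_int W (((tau W').comp R.u.toAddMonoidHom).comp f3)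
    fun w hw x => by
      obtain ⟨w', hw', e⟩ := inv' f3 a3 w hw
      simp [e, tau_left W' hw']
  obtain ⟨b, hb⟩ := R.decomp a
  choose k hk using fun κ : W ⧸ W'.subgroupOf W => R.exists_rm_sub (hWp κ.out.2) R.u
  obtain ⟨t, ht⟩ := lefschetz (cob W R.d1) (cob W R.d2) (cob W R.d3)
    (pull W W f0 (inv f0 a0)) (pull W W f1 (inv f1 a1)) (pull W W f2 (inv f2 a2))
    (pull W W f3 (inv f3 a3))
    (fun c => Inv.ext' fun x => by simp [b1]) (fun c => Inv.ext' fun x => by simp [b2])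
    (fun c => Inv.ext' fun x => by simp [b3]) (R.v0 W) (R.v0_ne W) (R.exact0 W)
    (Inv.ext' fun x => by simp [v0_apply, b0]) (R.exact1 W) (R.exact2 W hWp) (TT W R.u)
    (R.span3 W) (W'.relIndex W * R.deg a)
    ⟨(W'.relIndex W : ℚ) • TT W b + ∑ κ, pull W' W f2 (inv' f2 a2) (TT W' (k κ)),
      Inv.ext' fun x => by
      have e1 : ∀ κ : W ⧸ W'.subgroupOf W, R.u (f3 x) * og (κ.out : G) =
          R.u (f3 x) + k κ (f2 (R.d3 x)) := fun κ => by
        have := LinearMap.congr_fun (hk κ) (f3 x)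
        simp only [LinearMap.comp_apply, LinearMap.sub_apply, rm_apply, b3] at this
        rw [this]; abel
      have e2 : tau W' (R.u (f3 x)) = R.deg a * tau W (R.u x) + tau W (b (R.d3 x)) := by
        have e3 : tau W' (R.u (f3 x)) = tau W (a x) := (ha x).symm
        have e4 := LinearMap.congr_fun hb x
        simp only [LinearMap.comp_apply, LinearMap.add_apply, LinearMap.smul_apply] at e4
        rw [e3, e4, map_add, map_zsmul, smul_eq_mul]
      have e5 : W'.relIndex W = Fintype.card (W ⧸ W'.subgroupOf W) := by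
        rw [Subgroup.relIndex, Subgroup.index, Nat.card_eq_fintype_card]
      simp only [pull_apply, TT_apply, map_add, map_smul, map_sum, Submodule.coe_add,
        Submodule.coe_smul, AddSubmonoidClass.coe_finsetSum, AddMonoidHom.add_apply,
        AddMonoidHom.smul_apply, AddMonoidHom.finsetSum_apply, cob_apply, smul_eq_mul]
      rw [tau_sum W W' hW']
      simp only [e1, map_add, e2, Finset.sum_add_distrib, Finset.sum_const, Finset.card_univ,
        ← e5, nsmul_eq_mul]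
      push_cast
      ring⟩
  obtain ⟨n0, hn0⟩ := R.F0.trace_dvd W S hWS hN ψ h2 f0 a0 (inv f0 a0)
  obtain ⟨n1, hn1⟩ := R.F1.trace_dvd W S hWS hN ψ h2 f1 a1 (inv f1 a1)
  obtain ⟨n2, hn2⟩ := R.F2.trace_dvd W S hWS hN ψ h2 f2 a2 (inv f2 a2)
  obtain ⟨n3, hn3⟩ := R.F3.trace_dvd W S hWS hN ψ h2 f3 a3 (inv f3 a3)
  rw [hn0, hn1, hn2, hn3] at ht
  refine ⟨R.deg a * t, n0 - n1 + n2 - n3, ?_⟩
  have : (W.relIndex S * n0 - W.relIndex S * n1 + W.relIndex S * n2 - W.relIndex S * n3 : ℤ) =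
      1 - W'.relIndex W * R.deg a * t := by exact_mod_cast ht
  linarith

include R in
theorem fg : Group.FG G := by
  classical
  obtain ⟨α, hα, hα'⟩ := R.F0.exists_lift (M := ZG G) ⊤ (fun g => g) (fun _ _ => rfl)
    (((tau ⊤).comp (AddMonoidHom.snd R.P0 (ZG G))).eqLocus
      (R.eps.comp (AddMonoidHom.fst R.P0 (ZG G))))
    (fun h x y e => by
      change tau ⊤ _ = R.eps _ at e ⊢
      simpa [R.eps_smul, tau_left ⊤ h.2] using e)
    (fun x => ⟨R.eps x • 1, by
      change tau ⊤ (R.eps x • og (1 : G)) = R.eps x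
      rw [map_zsmul, tau_og_mem _ (Subgroup.mem_top _)]; simp⟩)
  replace hα' : ∀ x, tau ⊤ (α x) = R.eps x := hα'
  replace hα : ∀ (g : G) x, α (og g • x) = og g * α x := fun g x => hα ⟨g, trivial⟩ x
  have hαr : ∀ (r : ZG G) x, α (r • x) = r * α x := fun r x =>
    DFunLike.congr_fun (hom_ext (f := α.comp ((smulAddHom (ZG G) R.P0).flip x))
      (g := AddMonoidHom.mulRight (α x)) fun g => hα g x) r
  let T : Finset G := (α R.r0).coeff.support ∪
    Finset.univ.biUnion fun i => (α (R.d1 (R.F1.e i))).coeff.support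
  let S := Subgroup.closure (T : Set G)
  have hS : ∀ (y : ZG G), (∀ g ∈ y.coeff.support, g ∈ S) → ∀ r : ZG G,
      tau S (r * y) = tau S r * tau ⊤ y := fun y hy r => by
    conv_lhs => rw [← y.sum_coeff_single]
    conv_rhs => rw [← y.sum_coeff_single]
    rw [Finsupp.sum, Finset.mul_sum, map_sum, map_sum, Finset.mul_sum]
    refine Finset.sum_congr rfl fun g hg => ?_
    have : MonoidAlgebra.single g (y.coeff g) = y.coeff g • og g := by simp [og]
    rw [this, mul_smul_comm, map_zsmul, map_zsmul, tau_right S (hy g hg),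
      tau_og_mem _ (Subgroup.mem_top _)]
    simp [mul_comm]
  refine ⟨⟨T, eq_top_iff.mpr fun g _ => ?_⟩⟩
  by_contra hg
  obtain ⟨y, hy⟩ := (R.ex0 (og g • R.r0 - R.r0)).mp (by simp [R.eps_smul])
  have e1 : tau S (α (R.d1 y)) = 0 := by
    rw [← R.F1.sum y, map_sum, map_sum, map_sum]
    refine Finset.sum_eq_zero fun i _ => ?_
    rw [map_smul, hαr, hS _ (fun g hg => Subgroup.subset_closure (by
      simp only [T, Finset.coe_union, Set.mem_union, Finset.mem_coe, Finset.mem_biUnion]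
      exact Or.inr ⟨i, Finset.mem_univ _, hg⟩)), hα', R.eps_d1, mul_zero]
  have e2 := hS (α R.r0) (fun g hg => Subgroup.subset_closure (by
      simp only [T, Finset.coe_union, Set.mem_union, Finset.mem_coe]
      exact Or.inl hg))
  have e3 := e2 1
  rw [one_mul] at e3
  rw [hy, map_sub, map_sub, hα, e2, e3, hα', R.eps_r0, tau_og_notMem S hg, ← og_one,
    tau_og_mem S S.one_mem] at e1
  simp at e1

include R in
theorem surj_of_finiteIndex
    (hab : ∀ W : Subgroup G, W.FiniteIndex → Finite (Abelianization W))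
    (H : Subgroup G) [H.FiniteIndex] (φ : H →* H) (hφ : Function.Injective φ)
    [φ.range.FiniteIndex] : Function.Surjective φ := by
  have := R.fg
  have hfi : ∀ W : Subgroup H, W.FiniteIndex → (W.map H.subtype).FiniteIndex := fun W hW =>
    ⟨by rw [Subgroup.index_map_subtype]; exact mul_ne_zero hW.1 Subgroup.FiniteIndex.index_ne_zero⟩
  refine surj_of_cop (R.Gp.subgroupOf H) (fun S hS => ?_) (fun W hWn hWf hW0 ψ hψ hψf hW S hWS hS => ?_)
    φ hφ
  · have := hab _ (hfi S hS)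
    exact Finite.of_equiv _
      (S.equivMapOfInjective H.subtype H.subtype_injective).abelianizationCongr.symm.toEquiv
  have hW'f : (W.map ψ).FiniteIndex :=
    ⟨by rw [Subgroup.index_map_of_injective _ hψ]; exact mul_ne_zero hWf.1 hψf.1⟩
  have := hfi W hWf
  have := hfi _ hW'f
  have := hab (W.map H.subtype) inferInstance
  have hle : W.map ψ ≤ W := by rintro _ ⟨x, hx, rfl⟩; exact hW x hx
  have hSH : ∀ s : S.map H.subtype, (s : G) ∈ H := fun s => Subgroup.map_subtype_le S s.2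
  have hSS : ∀ s : S.map H.subtype, (⟨s, hSH s⟩ : H) ∈ S := fun s => by
    obtain ⟨x, hx, e⟩ := s.2
    have : (⟨s, hSH s⟩ : H) = x := Subtype.ext e.symm
    rwa [this]
  have hmem : ∀ (V : Subgroup H) (x : H), (x : G) ∈ V.map H.subtype ↔ x ∈ V := fun V x =>
    Subgroup.mem_map_iff_mem H.subtype_injective
  obtain ⟨t, ht⟩ := R.key (S.map H.subtype) (W.map H.subtype) ((W.map ψ).map H.subtype)
    (Subgroup.map_mono hWS) (by
      rintro _ ⟨s, -, rfl⟩ x
      by_cases hx : x ∈ H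
      · exact ((hmem W (s⁻¹ * ⟨x, hx⟩ * s)).trans
          (by simpa using hWn.mem_comm_iff (a := s⁻¹ * ⟨x, hx⟩) (b := s))).trans
          (hmem W ⟨x, hx⟩).symm
      · refine iff_of_false (fun e => hx ?_) fun e => hx (Subgroup.map_subtype_le W e)
        have := Subgroup.map_subtype_le W e
        exact (H.mul_mem_cancel_left (H.inv_mem s.2)).mp
          ((H.mul_mem_cancel_right s.2).mp this))
    (Subgroup.map_mono hle) (by rintro _ ⟨x, hx, rfl⟩; exact hW0 hx)
    (fun s => ψ ⟨s, hSH s⟩) (fun a b => by rw [← Subgroup.coe_mul, ← map_mul]; rfl)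
    (fun s hs => (hmem _ _).mpr ⟨_, (hmem W ⟨s, hSH s⟩).mp hs, rfl⟩)
    (fun s => (hmem W (ψ ⟨s, hSH s⟩ * ⟨s, hSH s⟩⁻¹)).mpr (hS _ (hSS s)))
  rw [Subgroup.relIndex_map_map_of_injective _ _ H.subtype_injective,
    Subgroup.relIndex_map_map_of_injective _ _ H.subtype_injective] at ht
  have e : (W.map ψ).relIndex W = ψ.range.index := by
    have e1 := Subgroup.relIndex_mul_index hle
    rw [Subgroup.index_map_of_injective _ hψ, mul_comm] at e1
    exact Nat.eq_of_mul_eq_mul_left (Nat.pos_of_ne_zero hWf.1) e1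
  rw [e] at ht
  obtain ⟨c, hc⟩ := ht
  rw [← Nat.isCoprime_iff_coprime]
  exact ⟨c, t, by linarith⟩

end Res3

end Pool.Agent.P.MP_50f9b9_al
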