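import Mathlib

/-! A Lefschetz trace formula for a four term complex of rational vector spaces. -/

namespace Pool.Agent.P.MP_50f9b9_al

open LinearMap

theorem exists_ginv {U V : Type} [AddCommGroup U] [Module ℚ U] [AddCommGroup V] [Module ℚ V]
    (δ : U →ₗ[ℚ] V) : ∃ h : V →ₗ[ℚ] U, ∀ x, δ (h (δ x)) = δ x := by
  obtain ⟨s, hs⟩ := δ.rangeRestrict.exists_rightInverse_of_surjective δ.range_rangeRestrict
  obtain ⟨h, hh⟩ := LinearMap.exists_extend s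
  refine ⟨h, fun x => ?_⟩
  have h1 : h (δ x) = s (δ.rangeRestrict x) := LinearMap.congr_fun hh (δ.rangeRestrict x)
  have h2 := LinearMap.congr_fun hs (δ.rangeRestrict x)
  rw [h1]
  exact congrArg Subtype.val h2

theorem trace_proj_eq {V : Type} [AddCommGroup V] [Module ℚ V] [FiniteDimensional ℚ V]
    (Z : Submodule ℚ V) (f p q : V →ₗ[ℚ] V) (hf : ∀ x ∈ Z, f x ∈ Z) (hp : ∀ x, p x ∈ Z)
    (hq : ∀ x, q x ∈ Z) (hp' : ∀ x ∈ Z, p x = x) (hq' : ∀ x ∈ Z, q x = x) :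
    trace ℚ V (f ∘ₗ p) = trace ℚ V (f ∘ₗ q) := by
  rw [← sub_eq_zero, ← map_sub]
  have h1 : ∀ x, (f ∘ₗ p - f ∘ₗ q) x ∈ Z := fun x => Z.sub_mem (hf _ (hp x)) (hf _ (hq x))
  rw [← trace_restrict_eq_of_forall_mem Z _ h1]
  have : (f ∘ₗ p - f ∘ₗ q).restrict (fun x _ => h1 x : ∀ x ∈ Z, _ ∈ Z) = 0 := by
    ext x
    simp [restrict_apply, hp' _ x.2, hq' _ x.2]
  rw [this, map_zero]

theorem trace_step {U V W : Type} [AddCommGroup U] [Module ℚ U] [FiniteDimensional ℚ U]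
    [AddCommGroup V] [Module ℚ V] [FiniteDimensional ℚ V] [AddCommGroup W] [Module ℚ W]
    (α : U →ₗ[ℚ] V) (β : V →ₗ[ℚ] W) (a : V →ₗ[ℚ] U) (b : W →ₗ[ℚ] V)
    (ha : ∀ x, α (a (α x)) = α x) (hb : ∀ x, β (b (β x)) = β x)
    (hex : ∀ y, β y = 0 ↔ ∃ x, α x = y) (f : U →ₗ[ℚ] U) (g : V →ₗ[ℚ] V)
    (hfg : ∀ x, α (f x) = g (α x)) :
    trace ℚ V g = trace ℚ U (f ∘ₗ a ∘ₗ α) + trace ℚ V (g ∘ₗ b ∘ₗ β) := by
  have h1 : trace ℚ U (f ∘ₗ a ∘ₗ α) = trace ℚ V (g ∘ₗ (α ∘ₗ a)) := by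
    rw [← comp_assoc, trace_comp_comm']
    congr 1
    ext x
    simp [hfg]
  have h2 := trace_proj_eq (range α) g (α ∘ₗ a) (LinearMap.id - b ∘ₗ β)
    (by rintro _ ⟨x, rfl⟩; exact ⟨f x, hfg x⟩) (fun x => ⟨a x, rfl⟩)
    (fun x => (hex _).mp (by simp [hb]))
    (by rintro _ ⟨x, rfl⟩; exact ha x)
    (by rintro _ ⟨x, rfl⟩; simp [(hex (α x)).mpr ⟨x, rfl⟩])
  rw [h1, h2, ← map_add]
  congr 1
  ext x
  simp

theorem lefschetz {V0 V1 V2 V3 : Type}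
    [AddCommGroup V0] [Module ℚ V0] [FiniteDimensional ℚ V0]
    [AddCommGroup V1] [Module ℚ V1] [FiniteDimensional ℚ V1]
    [AddCommGroup V2] [Module ℚ V2] [FiniteDimensional ℚ V2]
    [AddCommGroup V3] [Module ℚ V3] [FiniteDimensional ℚ V3]
    (δ0 : V0 →ₗ[ℚ] V1) (δ1 : V1 →ₗ[ℚ] V2) (δ2 : V2 →ₗ[ℚ] V3)
    (f0 : V0 →ₗ[ℚ] V0) (f1 : V1 →ₗ[ℚ] V1) (f2 : V2 →ₗ[ℚ] V2) (f3 : V3 →ₗ[ℚ] V3)
    (c0 : ∀ x, δ0 (f0 x) = f1 (δ0 x)) (c1 : ∀ x, δ1 (f1 x) = f2 (δ1 x))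
    (c2 : ∀ x, δ2 (f2 x) = f3 (δ2 x))
    (v0 : V0) (hv0 : v0 ≠ 0) (e0 : ∀ y, δ0 y = 0 ↔ ∃ t : ℚ, t • v0 = y) (hf0 : f0 v0 = v0)
    (e1 : ∀ y, δ1 y = 0 ↔ ∃ x, δ0 x = y) (e2 : ∀ y, δ2 y = 0 ↔ ∃ x, δ1 x = y)
    (v3 : V3) (e3 : ∀ y, ∃ (t : ℚ) (x : V2), y = t • v3 + δ2 x) (e : ℤ)
    (hf3 : ∃ x, f3 v3 = (e : ℚ) • v3 + δ2 x) :
    ∃ t : ℤ, trace ℚ V0 f0 - trace ℚ V1 f1 + trace ℚ V2 f2 - trace ℚ V3 f3 =
      ((1 - e * t : ℤ) : ℚ) := by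
  obtain ⟨h0, hh0⟩ := exists_ginv δ0
  obtain ⟨h1, hh1⟩ := exists_ginv δ1
  obtain ⟨h2, hh2⟩ := exists_ginv δ2
  obtain ⟨a, ha⟩ := exists_ginv (toSpanSingleton ℚ V0 v0)
  have s0 := trace_step (toSpanSingleton ℚ V0 v0) δ0 a h0 ha hh0 e0 LinearMap.id f0 (by simp [hf0])
  have s1 := trace_step δ0 δ1 h0 h1 hh0 hh1 e1 f0 f1 c0
  have s2 := trace_step δ1 δ2 h1 h2 hh1 hh2 e2 f1 f2 c1
  have t0 : trace ℚ ℚ (LinearMap.id ∘ₗ a ∘ₗ toSpanSingleton ℚ V0 v0) = 1 := by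
    have : (LinearMap.id ∘ₗ a ∘ₗ toSpanSingleton ℚ V0 v0 : ℚ →ₗ[ℚ] ℚ) = LinearMap.id := by
      ext
      have := ha 1
      simp only [toSpanSingleton_apply, one_smul] at this
      have h3 : (a v0 - 1) • v0 = 0 := by rw [sub_smul, this, one_smul, sub_self]
      have := sub_eq_zero.mp ((smul_eq_zero.mp h3).resolve_right hv0)
      simpa using this
    rw [this, trace_id]; simp
  let r : V3 →ₗ[ℚ] V3 := LinearMap.id - δ2 ∘ₗ h2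
  have hr0 : ∀ x, r (δ2 x) = 0 := fun x => by simp [r, hh2]
  have hrr : ∀ x, r (r x) = r x := fun x => by
    have : r x = x - δ2 (h2 x) := rfl
    conv_lhs => rw [this, map_sub, hr0, sub_zero]
  have hrf : ∀ y, r (f3 y) = (e : ℚ) • r y := by
    intro y
    obtain ⟨t, x, rfl⟩ := e3 y
    obtain ⟨z, hz⟩ := hf3
    simp only [map_add, map_smul, ← c2, hr0, hz, add_zero, smul_smul, mul_comm]
  have t3 : trace ℚ V3 f3 = trace ℚ V2 (f2 ∘ₗ h2 ∘ₗ δ2) + trace ℚ V3 (r ∘ₗ f3) := by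
    rw [← comp_assoc, trace_comp_comm', trace_comp_comm' f3 r, ← map_add]
    congr 1
    ext x
    simp [r, c2]
  have t4 : r ∘ₗ f3 = (e : ℚ) • r := LinearMap.ext hrf
  have t5 : trace ℚ V3 r = (Module.finrank ℚ (range r) : ℚ) :=
    IsProj.trace ⟨fun x => ⟨x, rfl⟩, by rintro _ ⟨x, rfl⟩; exact hrr x⟩
  refine ⟨Module.finrank ℚ (range r), ?_⟩
  rw [t4, map_smul, t5, smul_eq_mul] at t3
  rw [t0] at s0
  push_cast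
  linarith

end Pool.Agent.P.MP_50f9b9_al
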