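import Pool.Agent.P.MP_50f9b9_al.Bridge

/-! The final form of the theorem. -/

namespace Pool.Agent.P.MP_50f9b9_al

theorem exists_onto_int (W : Type) [Group W] [Group.FG W] (h : ¬ Finite (Abelianization W)) :
    ∃ f : W →* Multiplicative ℤ, Function.Surjective f := by
  have hs : Function.Surjective (Abelianization.of : W →* Abelianization W) :=
    QuotientGroup.mk_surjective
  have : Group.FG (Abelianization W) := Group.fg_of_surjective hs
  obtain ⟨n, ι, _, p, hp, e, ⟨φ⟩⟩ :=
    AddCommGroup.equiv_free_prod_directSum_zmod (Additive (Abelianization W))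
  cases n with
  | zero =>
    exfalso
    apply h
    have : ∀ i, NeZero (p i ^ e i) := fun i => ⟨pow_ne_zero _ (hp i).ne_zero⟩
    have : Finite (DirectSum ι fun i => ZMod (p i ^ e i)) :=
      Finite.of_injective _ DFunLike.coe_injective
    exact Finite.of_equiv _ (φ.toEquiv.symm.trans Additive.toMul)
  | succ n =>
    let g : Additive (Abelianization W) →+ ℤ :=
      ((Finsupp.applyAddHom 0).comp (AddMonoidHom.fst _ _)).comp φ.toAddMonoidHom
    refine ⟨(AddMonoidHom.toMultiplicativeRight g).comp Abelianization.of, fun z => ?_⟩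
    obtain ⟨x, hx⟩ := hs (Additive.toMul (φ.symm (Finsupp.single 0 z.toAdd, 0)))
    exact ⟨x, by simp [hx, g]⟩

theorem final (G : Type) [Group G] (hG : IsPD3 G) (H K : Subgroup G) [H.FiniteIndex]
    (hKH : K < H) (e : H ≃* K) :
    ∃ W : Subgroup G, W.FiniteIndex ∧ ∃ f : W →* Multiplicative ℤ, Function.Surjective f := by
  by_contra hc
  have hfg : Group.FG G := by
    obtain ⟨R⟩ := nonempty_resN hG
    obtain ⟨R3⟩ := R.nonempty_res3
    exact R3.fg
  have hab : ∀ W : Subgroup G, W.FiniteIndex → Finite (Abelianization W) := fun W hW => by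
    by_contra h
    exact hc ⟨W, hW, exists_onto_int W h⟩
  have hs := main hG hab H ((Subgroup.inclusion hKH.le).comp e.toMonoidHom)
    ((Subgroup.inclusion_injective hKH.le).comp e.injective)
  refine hKH.not_ge fun x hx => ?_
  obtain ⟨y, hy⟩ := hs ⟨x, hx⟩
  have : x = e y := (congrArg Subtype.val hy).symm
  rw [this]
  exact (e y).2

end Pool.Agent.P.MP_50f9b9_al
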