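import Pool.Agent.P.MP_50f9b9_al.Coch
import Pool.Agent.P.MP_50f9b9_al.Lef

/-! Resolutions of length three with duality, and the Lefschetz congruence. -/

namespace Pool.Agent.P.MP_50f9b9_al

/-- A projective resolution of length three whose dual complex resolves an infinite cyclic
group. -/
structure Res3 (G : Type) [Group G] where
  /-- degree zero -/
  P0 : ModuleCat.{0} (ZG G)
  /-- degree one -/
  P1 : ModuleCat.{0} (ZG G)
  /-- degree two -/
  P2 : ModuleCat.{0} (ZG G)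
  /-- degree three -/
  P3 : ModuleCat.{0} (ZG G)
  /-- frame -/
  F0 : Frame G P0
  /-- frame -/
  F1 : Frame G P1
  /-- frame -/
  F2 : Frame G P2
  /-- frame -/
  F3 : Frame G P3
  /-- boundary -/
  d1 : P1 →ₗ[ZG G] P0
  /-- boundary -/
  d2 : P2 →ₗ[ZG G] P1
  /-- boundary -/
  d3 : P3 →ₗ[ZG G] P2
  /-- augmentation -/
  eps : P0 →+ ℤ
  eps_smul : ∀ (g : G) x, eps (og g • x) = eps x
  /-- an element of augmentation one -/
  r0 : P0
  eps_r0 : eps r0 = 1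
  ex0 : ∀ x, eps x = 0 ↔ ∃ y, d1 y = x
  ex1 : ∀ x, d1 x = 0 ↔ ∃ y, d2 y = x
  ex2 : ∀ x, d2 x = 0 ↔ ∃ y, d3 y = x
  ex3 : ∀ x, d3 x = 0 → x = 0
  co2 : ∀ a : P2 →ₗ[ZG G] ZG G, a ∘ₗ d3 = 0 → ∃ b : P1 →ₗ[ZG G] ZG G, b ∘ₗ d2 = a
  /-- the top cohomology class -/
  deg : (P3 →ₗ[ZG G] ZG G) →+ ℤ
  /-- a generator -/
  u : P3 →ₗ[ZG G] ZG G
  deg_u : deg u = 1
  deg_ker : ∀ a, deg a = 0 ↔ ∃ b : P2 →ₗ[ZG G] ZG G, b ∘ₗ d3 = a

variable {G : Type} [Group G]

namespace Res3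

variable (R : Res3 G)

theorem eps_d1 (y : R.P1) : R.eps (R.d1 y) = 0 := (R.ex0 _).mpr ⟨y, rfl⟩
theorem d1_d2 (y : R.P2) : R.d1 (R.d2 y) = 0 := (R.ex1 _).mpr ⟨y, rfl⟩
theorem d2_d3 (y : R.P3) : R.d2 (R.d3 y) = 0 := (R.ex2 _).mpr ⟨y, rfl⟩

theorem decomp (a : R.P3 →ₗ[ZG G] ZG G) :
    ∃ b : R.P2 →ₗ[ZG G] ZG G, a = R.deg a • R.u + b ∘ₗ R.d3 := by
  obtain ⟨b, hb⟩ := (R.deg_ker (a - R.deg a • R.u)).mp (by simp [R.deg_u])
  exact ⟨b, by rw [hb]; abel⟩

theorem deg_rm (a : R.P3 →ₗ[ZG G] ZG G) (r : ZG G) :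
    R.deg (rm a r) = R.deg a * R.deg (rm R.u r) := by
  obtain ⟨b, hb⟩ := R.decomp a
  have : rm a r = R.deg a • rm R.u r + rm b r ∘ₗ R.d3 := by
    ext x : 1
    conv_lhs => rw [hb]
    simp [add_mul, mul_assoc]
  rw [this, map_add, map_zsmul, (R.deg_ker _).mpr ⟨_, rfl⟩]
  simp

/-- The orientation character. -/
noncomputable def ori : G →* ℤ where
  toFun g := R.deg (rm R.u (og g))
  map_one' := by
    have : rm R.u (og 1) = R.u := by ext x : 1; simp
    rw [this, R.deg_u]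
  map_mul' g h := by
    rw [← R.deg_rm]
    congr 1
    ext x : 1
    simp [og_mul, mul_assoc]

/-- The orientation subgroup. -/
noncomputable def Gp : Subgroup G := R.ori.toHomUnits.ker

instance : R.Gp.FiniteIndex := Subgroup.finiteIndex_ker _

theorem deg_rm_og {g : G} (hg : g ∈ R.Gp) (a : R.P3 →ₗ[ZG G] ZG G) :
    R.deg (rm a (og g)) = R.deg a := by
  have : R.deg (rm R.u (og g)) = 1 := congrArg Units.val hg
  rw [R.deg_rm, this, mul_one]

theorem exists_rm_sub {g : G} (hg : g ∈ R.Gp) (a : R.P3 →ₗ[ZG G] ZG G) :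
    ∃ b : R.P2 →ₗ[ZG G] ZG G, b ∘ₗ R.d3 = rm a (og g) - a :=
  (R.deg_ker _).mp (by rw [map_sub, R.deg_rm_og hg, sub_self])

/-- The augmentation as an invariant cochain. -/
noncomputable def v0 (W : Subgroup G) : Inv W R.P0 :=
  ⟨(Int.castAddHom ℚ).comp R.eps, fun w _ x => by simp [R.eps_smul]⟩

theorem v0_apply (W : Subgroup G) (x : R.P0) : (R.v0 W).1 x = (R.eps x : ℚ) := rfl

theorem v0_ne (W : Subgroup G) : R.v0 W ≠ 0 := fun h => by
  have : (R.v0 W).1 R.r0 = 0 := by rw [h]; rfl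
  simp [v0_apply, R.eps_r0] at this

theorem exists_d1 (x : R.P0) : ∃ y, R.d1 y = x - R.eps x • R.r0 :=
  (R.ex0 _).mp (by simp [R.eps_r0])

theorem exact0 (W : Subgroup G) (c : Inv W R.P0) :
    cob W R.d1 c = 0 ↔ ∃ t : ℚ, t • R.v0 W = c := by
  constructor
  · intro h
    refine ⟨c.1 R.r0, Inv.ext' fun x => ?_⟩
    obtain ⟨y, hy⟩ := R.exists_d1 x
    have h1 : c.1 (R.d1 y) = 0 := by rw [← cob_apply, h]; rfl
    rw [hy, map_sub, map_zsmul, sub_eq_zero] at h1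
    simp [h1, v0_apply, mul_comm]
  · rintro ⟨t, rfl⟩
    exact Inv.ext' fun x => by simp [v0_apply, R.eps_d1]

theorem exact1 (W : Subgroup G) [Finite (Abelianization W)] (c : Inv W R.P1) :
    cob W R.d2 c = 0 ↔ ∃ b, cob W R.d1 b = c := by
  constructor
  · intro h
    have h0 : ∀ y y', R.d1 y = R.d1 y' → c.1 y = c.1 y' := fun y y' e => by
      obtain ⟨z, hz⟩ := (R.ex1 (y - y')).mp (by rw [map_sub, e, sub_self])
      have h1 : c.1 (R.d2 z) = 0 := by rw [← cob_apply, h]; rfl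
      rwa [hz, map_sub, sub_eq_zero] at h1
    choose s hs using R.exists_d1
    have hs' : ∀ w : G, R.d1 (s (og w • R.r0)) = og w • R.r0 - R.r0 := fun w => by
      rw [hs, R.eps_smul, R.eps_r0, one_smul]
    have hκ := hom_zero W (fun w : W => c.1 (s (og (w : G) • R.r0))) fun x y => by
      rw [← c.2 x x.2 (s (og (y : G) • R.r0)), ← map_add]
      apply h0
      rw [map_add, map_smul, hs', hs', hs', Subgroup.coe_mul, og_mul, mul_smul, smul_sub]
      abel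
    refine ⟨⟨AddMonoidHom.mk' (fun x => c.1 (s x)) fun x y => ?_, fun w hw x => ?_⟩,
      Inv.ext' fun y => ?_⟩
    · rw [← map_add]
      apply h0
      simp only [map_add, hs, add_smul]
      abel
    · change c.1 (s (og w • x)) = c.1 (s x)
      have h1 : c.1 (s (og w • x)) = c.1 (og w • s x + R.eps x • s (og w • R.r0)) := by
        apply h0
        rw [map_add, map_smul, map_zsmul, hs', hs, hs, R.eps_smul, smul_sub, smul_sub,
          smul_comm (og w) (R.eps x)]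
        abel
      have h2 : c.1 (s (og w • R.r0)) = 0 := hκ ⟨w, hw⟩
      rw [h1, map_add, map_zsmul, h2, smul_zero, add_zero, c.2 w hw]
    · change c.1 (s (R.d1 y)) = c.1 y
      apply h0
      rw [hs, R.eps_d1, zero_smul, sub_zero]
  · rintro ⟨b, rfl⟩
    exact Inv.ext' fun x => by simp [R.d1_d2]

theorem exact2 (W : Subgroup G) [W.FiniteIndex] [Finite (Abelianization W)] (hW : W ≤ R.Gp)
    (c : Inv W R.P2) : cob W R.d3 c = 0 ↔ ∃ b, cob W R.d2 b = c := by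
  constructor
  · intro h
    let B := LinearMap.range (cob W R.d2)
    have hB : ∀ a : R.P2 →ₗ[ZG G] ZG G, a ∘ₗ R.d3 = 0 → TT W a ∈ B := fun a ha => by
      obtain ⟨b, rfl⟩ := R.co2 a ha
      exact ⟨TT W b, rfl⟩
    choose k hk using fun w : W => R.exists_rm_sub (hW w.2) R.u
    have hκ := hom_zero W (fun w : W => B.mkQ (TT W (k w))) fun x y => by
      rw [← map_add, ← sub_eq_zero, ← map_sub, Submodule.mkQ_apply,
        Submodule.Quotient.mk_eq_zero, ← TT_rm W (k x) y.2, ← map_add, ← map_sub]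
      apply hB
      ext z : 1
      have e1 := LinearMap.congr_fun (hk (x * y)) z
      have e2 := LinearMap.congr_fun (hk x) z
      have e3 := LinearMap.congr_fun (hk y) z
      simp only [LinearMap.comp_apply, LinearMap.sub_apply, LinearMap.add_apply, rm_apply,
        Subgroup.coe_mul, og_mul, LinearMap.zero_apply] at e1 e2 e3 ⊢
      rw [e1, e2, e3]
      noncomm_ring
    let J : AddSubgroup (R.P3 →ₗ[ZG G] ZG G) :=
      { carrier := {y | ∃ a : R.P2 →ₗ[ZG G] ZG G, a ∘ₗ R.d3 = y ∧ TT W a ∈ B}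
        add_mem' := by
          rintro _ _ ⟨a, rfl, ha⟩ ⟨b, rfl, hb⟩
          exact ⟨a + b, LinearMap.add_comp _ _ _, by rw [map_add]; exact B.add_mem ha hb⟩
        zero_mem' := ⟨0, LinearMap.zero_comp _, by rw [map_zero]; exact B.zero_mem⟩
        neg_mem' := by
          rintro _ ⟨a, rfl, ha⟩
          exact ⟨-a, LinearMap.neg_comp _ _, by rw [map_neg]; exact B.neg_mem ha⟩ }
    have hJ : ∀ b, ∀ w ∈ W, rm b (og w) - b ∈ J := fun b w hw => by
      obtain ⟨b', hb'⟩ := R.decomp b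
      refine ⟨R.deg b • k ⟨w, hw⟩ + (rm b' (og w) - b'), ?_, ?_⟩
      · ext z : 1
        have e1 := LinearMap.congr_fun (hk ⟨w, hw⟩) z
        have e2 := LinearMap.congr_fun hb' z
        simp only [LinearMap.comp_apply, LinearMap.sub_apply, LinearMap.add_apply, rm_apply,
          LinearMap.smul_apply] at e1 e2 ⊢
        rw [e1, e2, add_mul, smul_mul_assoc, smul_sub]
        abel
      · rw [map_add, map_sub, TT_rm W _ hw, sub_self, add_zero, map_zsmul]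
        exact B.smul_of_tower_mem _ ((Submodule.Quotient.mk_eq_zero _).mp (hκ ⟨w, hw⟩))
    obtain ⟨N, a, hN, ha⟩ := R.F2.exists_TT W c
    obtain ⟨a', ha', hB'⟩ := R.F3.mem_of_tau W J hJ (a ∘ₗ R.d3) fun x => by
      have : (TT W (a ∘ₗ R.d3)).1 x = 0 := by rw [TT_comp, ha, map_smul, h, smul_zero]; rfl
      rw [TT_apply] at this
      exact_mod_cast this
    have h1 := hB (a - a') (by rw [LinearMap.sub_comp, ha', sub_self])
    have h2 : N • c ∈ B := by
      have := B.add_mem h1 hB'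
      rwa [map_sub, sub_add_cancel, ha] at this
    exact (B.smul_mem_iff hN).mp h2
  · rintro ⟨b, rfl⟩
    exact Inv.ext' fun x => by simp [R.d2_d3]

theorem span3 (W : Subgroup G) [W.FiniteIndex] (c : Inv W R.P3) :
    ∃ (t : ℚ) (b : Inv W R.P2), c = t • TT W R.u + cob W R.d3 b := by
  obtain ⟨N, a, hN, ha⟩ := R.F3.exists_TT W c
  obtain ⟨b, hb⟩ := R.decomp a
  refine ⟨N⁻¹ * R.deg a, N⁻¹ • TT W b, ?_⟩
  rw [hb, map_add, map_zsmul, TT_comp, ← Int.cast_smul_eq_zsmul ℚ] at ha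
  rw [map_smul, mul_smul, ← smul_add, ha, smul_smul, inv_mul_cancel₀ hN, one_smul]

/-- A chain map over a homomorphism defined on a subgroup. -/
theorem exists_chain (S : Subgroup G) (ψ : S → G) (hψ : ∀ a b, ψ (a * b) = ψ a * ψ b) :
    ∃ (f0 : R.P0 →+ R.P0) (f1 : R.P1 →+ R.P1) (f2 : R.P2 →+ R.P2) (f3 : R.P3 →+ R.P3),
      (∀ (s : S) x, f0 (og (s : G) • x) = og (ψ s) • f0 x) ∧
      (∀ (s : S) x, f1 (og (s : G) • x) = og (ψ s) • f1 x) ∧
      (∀ (s : S) x, f2 (og (s : G) • x) = og (ψ s) • f2 x) ∧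
      (∀ (s : S) x, f3 (og (s : G) • x) = og (ψ s) • f3 x) ∧
      (∀ x, R.eps (f0 x) = R.eps x) ∧ (∀ x, R.d1 (f1 x) = f0 (R.d1 x)) ∧
      (∀ x, R.d2 (f2 x) = f1 (R.d2 x)) ∧ (∀ x, R.d3 (f3 x) = f2 (R.d3 x)) := by
  obtain ⟨f0, a0, b0⟩ := R.F0.exists_lift (M := R.P0) S ψ hψ
    ((R.eps.comp (AddMonoidHom.snd R.P0 R.P0)).eqLocus (R.eps.comp (AddMonoidHom.fst R.P0 R.P0)))
    (fun h x y e => by
      change R.eps _ = R.eps _ at e ⊢
      simpa [R.eps_smul] using e) (fun x => ⟨x, show R.eps x = R.eps x from rfl⟩)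
  replace b0 : ∀ x, R.eps (f0 x) = R.eps x := b0
  obtain ⟨f1, a1, b1⟩ := R.F1.exists_lift S ψ hψ
    ((R.d1.toAddMonoidHom.comp (AddMonoidHom.snd _ _)).eqLocus
      ((f0.comp R.d1.toAddMonoidHom).comp (AddMonoidHom.fst _ _)))
    (fun h x y e => by
      change R.d1 _ = f0 (R.d1 _) at e ⊢
      simp only [AddMonoidHom.coe_snd, AddMonoidHom.coe_fst, map_smul, a0] at e ⊢
      rw [e]) (fun x => (R.ex0 _).mp (by rw [b0]; exact R.eps_d1 x))
  replace b1 : ∀ x, R.d1 (f1 x) = f0 (R.d1 x) := b1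
  obtain ⟨f2, a2, b2⟩ := R.F2.exists_lift S ψ hψ
    ((R.d2.toAddMonoidHom.comp (AddMonoidHom.snd _ _)).eqLocus
      ((f1.comp R.d2.toAddMonoidHom).comp (AddMonoidHom.fst _ _)))
    (fun h x y e => by
      change R.d2 _ = f1 (R.d2 _) at e ⊢
      simp only [AddMonoidHom.coe_snd, AddMonoidHom.coe_fst, map_smul, a1] at e ⊢
      rw [e]) (fun x => (R.ex1 (f1 (R.d2 x))).mp (by rw [b1, R.d1_d2, map_zero]))
  replace b2 : ∀ x, R.d2 (f2 x) = f1 (R.d2 x) := b2
  obtain ⟨f3, a3, b3⟩ := R.F3.exists_lift S ψ hψ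
    ((R.d3.toAddMonoidHom.comp (AddMonoidHom.snd _ _)).eqLocus
      ((f2.comp R.d3.toAddMonoidHom).comp (AddMonoidHom.fst _ _)))
    (fun h x y e => by
      change R.d3 _ = f2 (R.d3 _) at e ⊢
      simp only [AddMonoidHom.coe_snd, AddMonoidHom.coe_fst, map_smul, a2] at e ⊢
      rw [e]) (fun x => (R.ex2 (f2 (R.d3 x))).mp (by rw [b2, R.d2_d3, map_zero]))
  exact ⟨f0, f1, f2, f3, a0, a1, a2, a3, b0, b1, b2, b3⟩

end Res3

end Pool.Agent.P.MP_50f9b9_al
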