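import Mathlib

/-! Elementary facts on the integral group ring and on finitely generated projective modules. -/

namespace Pool.Agent.P.MP_50f9b9_al

/-- The integral group ring. -/
abbrev ZG (G : Type) [Group G] := MonoidAlgebra ℤ G

variable {G : Type} [Group G]

/-- A group element in the group ring. -/
noncomputable def og (g : G) : ZG G := MonoidAlgebra.single g 1

theorem og_mul (g h : G) : og (g * h) = og g * og h := by
  simp [og, MonoidAlgebra.single_mul_single]

@[simp] theorem og_one : og (1 : G) = 1 := rfl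

/-- The additive extension of a function on the group. -/
noncomputable def ext {A : Type} [AddCommGroup A] (u : G → A) : ZG G →+ A :=
  (Finsupp.liftAddHom fun g => zmultiplesHom A (u g)).comp
    MonoidAlgebra.coeffAddEquiv.toAddMonoidHom

@[simp] theorem ext_og {A : Type} [AddCommGroup A] (u : G → A) (g : G) : ext u (og g) = u g := by
  simp [ext, og]

theorem mem_of_og (J : AddSubgroup (ZG G)) (h : ∀ g, og g ∈ J) (r : ZG G) : r ∈ J := by
  induction r using MonoidAlgebra.induction_linear with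
  | zero => exact J.zero_mem
  | add a b ha hb => exact J.add_mem ha hb
  | single g n =>
    have : MonoidAlgebra.single g n = n • og g := by simp [og]
    rw [this]; exact J.zsmul_mem (h g) n

theorem hom_ext {A : Type} [AddCommGroup A] {f g : ZG G →+ A} (h : ∀ x, f (og x) = g (og x)) :
    f = g := by
  exact AddMonoidHom.ext fun r => mem_of_og (f.eqLocus g) h r

open Classical in
/-- Sum of the coefficients over a subgroup. -/
noncomputable def tau (W : Subgroup G) : ZG G →+ ℤ := ext fun g => if g ∈ W then 1 else 0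

open Classical in
theorem tau_og (W : Subgroup G) (g : G) : tau W (og g) = if g ∈ W then 1 else 0 := ext_og _ _

theorem tau_eq (W : Subgroup G) (a b c d : G) (h : ∀ g, a * g * b ∈ W ↔ c * g * d ∈ W)
    (r : ZG G) : tau W (og a * r * og b) = tau W (og c * r * og d) := by
  have := hom_ext (f := (tau W).comp ((AddMonoidHom.mulRight (og b)).comp
      (AddMonoidHom.mulLeft (og a))))
    (g := (tau W).comp ((AddMonoidHom.mulRight (og d)).comp (AddMonoidHom.mulLeft (og c))))
    (fun x => by
      simp only [AddMonoidHom.comp_apply, AddMonoidHom.coe_mulRight,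
        AddMonoidHom.coe_mulLeft, ← og_mul, tau_og]
      by_cases hx : c * x * d ∈ W
      · rw [if_pos hx, if_pos ((h x).mpr hx)]
      · rw [if_neg hx, if_neg (mt (h x).mp hx)])
  exact DFunLike.congr_fun this r

theorem tau_left (W : Subgroup G) {w : G} (hw : w ∈ W) (r : ZG G) :
    tau W (og w * r) = tau W r := by
  simpa using tau_eq W w 1 1 1 (fun g => by simp [W.mul_mem_cancel_left hw]) r

theorem tau_right (W : Subgroup G) {w : G} (hw : w ∈ W) (r : ZG G) :
    tau W (r * og w) = tau W r := by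
  simpa using tau_eq W 1 w 1 1 (fun g => by simp [W.mul_mem_cancel_right hw]) r

theorem tau_og_mem (W : Subgroup G) {g : G} (h : g ∈ W) : tau W (og g) = 1 := by
  rw [tau_og, if_pos h]

theorem tau_og_notMem (W : Subgroup G) {g : G} (h : g ∉ W) : tau W (og g) = 0 := by
  rw [tau_og, if_neg h]

theorem mem_of_fibers {X : Type} (π : G → X) (σ : X → G) (J : AddSubgroup (ZG G))
    (hJ : ∀ g, og g - og (σ (π g)) ∈ J) (W : Subgroup G) (a b : X → G)
    (hab : ∀ c g, π g = c ↔ a c * g * b c ∈ W) (r : ZG G)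
    (hr : ∀ c, tau W (og (a c) * r * og (b c)) = 0) : r ∈ J := by
  classical
  let q : ZG G →+ (X →₀ ℤ) := ext fun g => Finsupp.single (π g) 1
  let l : (X →₀ ℤ) →+ ZG G := Finsupp.liftAddHom fun c => zmultiplesHom _ (og (σ c))
  have h1 := mem_of_og (J.comap (AddMonoidHom.id _ - l.comp q))
    (fun g => by simpa [q, l] using hJ g) r
  have h2 : q r = 0 := by
    ext c
    have := hom_ext (f := (Finsupp.applyAddHom c).comp q)
      (g := (tau W).comp ((AddMonoidHom.mulRight (og (b c))).comp
        (AddMonoidHom.mulLeft (og (a c)))))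
      (fun g => by
        simp only [AddMonoidHom.comp_apply, AddMonoidHom.coe_mulRight,
          AddMonoidHom.coe_mulLeft, ← og_mul, tau_og, q, ext_og, Finsupp.applyAddHom_apply,
          Finsupp.single_apply, hab])
    exact (DFunLike.congr_fun this r).trans (hr c)
  simpa [h2] using h1

theorem mem_right (W : Subgroup G) (J : AddSubgroup (ZG G))
    (hJ : ∀ (g : G), ∀ w ∈ W, og g * og w - og g ∈ J) (r : ZG G)
    (hr : ∀ x : G, tau W (og x * r) = 0) : r ∈ J := by
  refine mem_of_fibers (fun g : G => (g : G ⧸ W)) Quotient.out J (fun g => ?_) W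
    (fun c => c.out⁻¹) (fun _ => 1) (fun c g => ?_) r (fun c => by simpa using hr _)
  · have h1 : ((g : G ⧸ W).out)⁻¹ * g ∈ W := QuotientGroup.eq.mp (Quotient.out_eq _)
    have := hJ (g : G ⧸ W).out _ h1
    rwa [← og_mul, mul_inv_cancel_left] at this
  · rw [mul_one, ← QuotientGroup.eq, QuotientGroup.out_eq', eq_comm]

theorem mk_inv_eq_iff (W : Subgroup G) (g : G) (c : G ⧸ W) :
    ((g⁻¹ : G) : G ⧸ W) = c ↔ g * c.out ∈ W := by
  conv_lhs => rw [← QuotientGroup.out_eq' c, QuotientGroup.eq, inv_inv]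

theorem mem_left (W : Subgroup G) (J : AddSubgroup (ZG G))
    (hJ : ∀ (g : G), ∀ w ∈ W, og w * og g - og g ∈ J) (r : ZG G)
    (hr : ∀ x : G, tau W (r * og x) = 0) : r ∈ J := by
  refine mem_of_fibers (fun g : G => ((g⁻¹ : G) : G ⧸ W)) (fun c => c.out⁻¹) J (fun g => ?_) W
    (fun _ => 1) (fun c => c.out) (fun c g => ?_) r (fun c => by simpa using hr _)
  · have := hJ ((g⁻¹ : G) : G ⧸ W).out⁻¹ _ ((mk_inv_eq_iff W g _).mp rfl)
    rwa [← og_mul, mul_inv_cancel_right] at this
  · rw [one_mul, mk_inv_eq_iff]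

/-- A finite dual frame of a module over the group ring. -/
structure Frame (G : Type) [Group G] (P : Type) [AddCommGroup P] [Module (ZG G) P] where
  /-- number of elements -/
  m : ℕ
  /-- generators -/
  e : Fin m → P
  /-- coordinates -/
  j : Fin m → P →ₗ[ZG G] ZG G
  sum : ∀ x, ∑ i, j i x • e i = x

theorem nonempty_frame (P : Type) [AddCommGroup P] [Module (ZG G) P] [Module.Finite (ZG G) P]
    [Module.Projective (ZG G) P] : Nonempty (Frame G P) := by
  obtain ⟨n, f, g, -, -, h⟩ := Module.Finite.exists_comp_eq_id_of_projective (ZG G) P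
  refine ⟨⟨n, fun i => f (Pi.single i 1), fun i => (LinearMap.proj i).comp g, fun x => ?_⟩⟩
  have h1 : f (g x) = x := LinearMap.congr_fun h x
  conv_rhs => rw [← h1, ← Finset.univ_sum_single (g x), map_sum]
  refine Finset.sum_congr rfl fun i _ => ?_
  rw [← map_smul, ← Pi.single_smul]
  simp

section
variable {P : Type} [AddCommGroup P] [Module (ZG G) P]

/-- Right multiplication on the dual module. -/
noncomputable def rm (a : P →ₗ[ZG G] ZG G) (r : ZG G) : P →ₗ[ZG G] ZG G :=
  (LinearMap.toSpanSingleton (ZG G) (ZG G) r).comp a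

@[simp] theorem rm_apply (a : P →ₗ[ZG G] ZG G) (r : ZG G) (x : P) : rm a r x = a x * r := rfl

/-- `rm a` as an additive map. -/
noncomputable def rmHom (a : P →ₗ[ZG G] ZG G) : ZG G →+ (P →ₗ[ZG G] ZG G) :=
  AddMonoidHom.mk' (rm a) fun r s => by ext x : 1; simp [mul_add]

theorem Frame.dual_sum (F : Frame G P) (a : P →ₗ[ZG G] ZG G) :
    ∑ i, rm (F.j i) (a (F.e i)) = a := by
  ext x : 1
  conv_rhs => rw [← F.sum x, map_sum]
  simp [LinearMap.sum_apply]

/-- The kernel of `a ↦ tau W ∘ a` is spanned by the elements `b w - b`. -/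
theorem Frame.mem_of_tau (F : Frame G P) (W : Subgroup G) (J : AddSubgroup (P →ₗ[ZG G] ZG G))
    (hJ : ∀ b, ∀ w ∈ W, rm b (og w) - b ∈ J) (a : P →ₗ[ZG G] ZG G)
    (ha : ∀ x, tau W (a x) = 0) : a ∈ J := by
  rw [← F.dual_sum a]
  refine J.sum_mem fun i _ => ?_
  refine mem_right W (J.comap (rmHom (F.j i))) (fun g w hw => ?_) _ (fun x => ?_)
  · have := hJ (rm (F.j i) (og g)) w hw
    rw [AddSubgroup.mem_comap, map_sub]
    have e : rm (rm (F.j i) (og g)) (og w) = rm (F.j i) (og g * og w) := by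
      ext x : 1
      simp [mul_assoc]
    rw [e] at this
    exact this
  · rw [← smul_eq_mul, ← map_smul]; exact ha _

/-- Expansion of an invariant additive map. -/
theorem Frame.expand (F : Frame G P) (W : Subgroup G) [Fintype (G ⧸ W)] {A : Type}
    [AddCommGroup A] (c : P →+ A) (hc : ∀ w ∈ W, ∀ x, c (og w • x) = c x) (x : P) :
    c x = ∑ i, ∑ κ : G ⧸ W, tau W (F.j i x * og κ.out) • c (og κ.out⁻¹ • F.e i) := by
  classical
  conv_lhs => rw [← F.sum x, map_sum]
  refine Finset.sum_congr rfl fun i _ => ?_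
  have := hom_ext (f := c.comp ((smulAddHom (ZG G) P).flip (F.e i)))
    (g := ∑ κ : G ⧸ W, (zmultiplesHom A (c (og κ.out⁻¹ • F.e i))).comp
      ((tau W).comp (AddMonoidHom.mulRight (og κ.out)))) (fun g => by
      have h1 : ∀ κ : G ⧸ W, g * κ.out ∈ W ↔ ((g⁻¹ : G) : G ⧸ W) = κ := fun κ =>
        (mk_inv_eq_iff W g κ).symm
      simp only [AddMonoidHom.finsetSum_apply, AddMonoidHom.comp_apply, AddMonoidHom.flip_apply,
        smulAddHom_apply, AddMonoidHom.coe_mulRight, ← og_mul, tau_og, h1, zmultiplesHom_apply,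
        ite_smul, one_smul, zero_smul, Finset.sum_ite_eq, Finset.mem_univ, if_true]
      have e := hc _ ((h1 _).mpr rfl) (og ((g⁻¹ : G) : G ⧸ W).out⁻¹ • F.e i)
      rw [smul_smul, ← og_mul, mul_inv_cancel_right] at e
      exact e)
  simpa [AddMonoidHom.finsetSum_apply] using DFunLike.congr_fun this (F.j i x)

/-- Semilinear lifting along a homomorphism defined on a subgroup. -/
theorem Frame.exists_lift (F : Frame G P) {M : Type} [AddCommGroup M] [Module (ZG G) M]
    (H : Subgroup G) (ψ : H → G) (hψ : ∀ a b, ψ (a * b) = ψ a * ψ b)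
    (Γ : AddSubgroup (P × M))
    (hΓ : ∀ (h : H) (x : P) (y : M), (x, y) ∈ Γ → (og (h : G) • x, og (ψ h) • y) ∈ Γ)
    (hs : ∀ x, ∃ y, (x, y) ∈ Γ) :
    ∃ s : P →+ M, (∀ (h : H) x, s (og (h : G) • x) = og (ψ h) • s x) ∧ ∀ x, (x, s x) ∈ Γ := by
  choose t ht using hs
  let c : G → G := fun g => ((g⁻¹ : G) : G ⧸ H).out
  have hc : ∀ g, g * c g ∈ H := fun g => by
    have : g⁻¹⁻¹ * c g ∈ H := QuotientGroup.eq.mp (Quotient.out_eq _).symm
    rwa [inv_inv] at this
  have hc' : ∀ (h : H) g, c (h * g) = c g := fun h g => by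
    have : ((((h : G) * g)⁻¹ : G) : G ⧸ H) = ((g⁻¹ : G) : G ⧸ H) :=
      QuotientGroup.eq.mpr (by simp)
    simp only [c, this]
  let s' : Fin F.m → ZG G →+ M := fun i =>
    ext fun g => og (ψ ⟨g * c g, hc g⟩) • t (og (c g)⁻¹ • F.e i)
  have h1 : ∀ i (h : H) r, s' i (og (h : G) * r) = og (ψ h) • s' i r := fun i h r => by
    have := hom_ext (f := (s' i).comp (AddMonoidHom.mulLeft (og (h : G))))
      (g := (smulAddHom (ZG G) M (og (ψ h))).comp (s' i)) (fun g => by
        simp only [AddMonoidHom.comp_apply, AddMonoidHom.coe_mulLeft, ← og_mul, s', ext_og,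
          smulAddHom_apply, smul_smul, ← hψ]
        have e1 : (⟨h * g * c (h * g), hc _⟩ : H) = h * ⟨g * c g, hc g⟩ :=
          Subtype.ext (by simp [hc', mul_assoc])
        rw [e1, hc'])
    exact DFunLike.congr_fun this r
  have h2 : ∀ i r, (r • F.e i, s' i r) ∈ Γ := fun i r =>
    mem_of_og (Γ.comap (((smulAddHom (ZG G) P).flip (F.e i)).prod (s' i))) (fun g => by
      have := hΓ ⟨g * c g, hc g⟩ _ _ (ht (og (c g)⁻¹ • F.e i))
      rw [smul_smul, ← og_mul, mul_inv_cancel_right] at this
      simpa [s'] using this) r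
  refine ⟨∑ i, (s' i).comp (F.j i).toAddMonoidHom, fun h x => ?_, fun x => ?_⟩
  · simp [AddMonoidHom.finsetSum_apply, h1, Finset.smul_sum]
  · have := Γ.sum_mem (t := Finset.univ) fun i _ => h2 i (F.j i x)
    convert this using 1
    ext
    · simp [Prod.fst_sum, F.sum]
    · simp [Prod.snd_sum, AddMonoidHom.finsetSum_apply]

end

end Pool.Agent.P.MP_50f9b9_al
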