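import Mathlib

/-! A finite soluble group whose derived quotients grow at most exponentially has bounded order. -/

namespace Pool.Agent.P.MP_50f9b9_al

open Subgroup
open scoped commutatorElement

theorem derived_card_aux (X : Type) [Group X] [Finite X] [Group.IsSolvable X] (n : ℕ) :
    derivedSeries X n = ⊥ ∨ Nat.card (derivedSeries X n) + n ≤ Nat.card X := by
  induction n with
  | zero => right; simp
  | succ n ih =>
    by_cases h : derivedSeries X n = ⊥
    · left; rw [derivedSeries_succ, h]; simp
    · right
      have ih' := ih.resolve_left h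
      have hlt : derivedSeries X (n + 1) < derivedSeries X n :=
        Group.IsSolvable.commutator_lt_of_ne_bot h
      have : Nat.card (derivedSeries X (n + 1)) < Nat.card (derivedSeries X n) :=
        Set.Finite.card_lt_card (Set.toFinite _) hlt
      omega

theorem derived_eq_bot_of_card_le (X : Type) [Group X] [Finite X] [Group.IsSolvable X] (N : ℕ)
    (h : Nat.card X ≤ N) : derivedSeries X N = ⊥ := by
  rcases derived_card_aux X N with h1 | h1
  · exact h1
  · have : 0 < Nat.card (derivedSeries X N) := Nat.card_pos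
    omega

/-- The `B!`-th derived subgroup centralizes every normal subgroup of order at most `B`. -/
theorem derived_centralizes (E : Type) [Group E] [Finite E] [Group.IsSolvable E]
    (A : Subgroup E) [A.Normal] (B : ℕ) (hA : Nat.card A ≤ B) :
    ⁅derivedSeries E B.factorial, A⁆ = ⊥ := by
  let f : E →* MulAut A := MulAut.conjNormal
  have hcard : Nat.card f.range ≤ B.factorial := by
    have h1 : Nat.card f.range ≤ Nat.card (Equiv.Perm A) :=
      Nat.card_le_card_of_injective (fun x : f.range => (x.1 : MulAut A).toEquiv) (by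
        intro x y hxy
        exact Subtype.ext (MulEquiv.toEquiv_injective hxy))
    rw [Nat.card_perm] at h1
    exact h1.trans (Nat.factorial_le hA)
  haveI : Group.IsSolvable f.range :=
    Group.isSolvable_of_surjective f.rangeRestrict_surjective
  have hb := derived_eq_bot_of_card_le f.range _ hcard
  rw [← map_derivedSeries_eq f.rangeRestrict_surjective, Subgroup.map_eq_bot_iff] at hb
  rw [commutator_eq_bot_iff_le_centralizer]
  intro x hx
  have hx1 : f x = 1 := by
    have := hb hx
    rw [MonoidHom.mem_ker] at this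
    exact congrArg Subtype.val this
  rw [mem_centralizer_iff]
  intro a ha
  have h2 : (f x ⟨a, ha⟩ : E) = a := by rw [hx1]; rfl
  have h3 : (f x ⟨a, ha⟩ : E) = x * a * x⁻¹ := rfl
  rw [h3] at h2
  calc a * x = (x * a * x⁻¹) * x := by rw [h2]
    _ = x * a := by group

theorem derived_comm_le (C : Type) [Group C] [Finite C] [Group.IsSolvable C] (B i j : ℕ)
    (hi : B.factorial ≤ i)
    (hj : (derivedSeries C (j + 1)).relIndex (derivedSeries C j) ≤ B) :
    ⁅derivedSeries C i, derivedSeries C j⁆ ≤ derivedSeries C (j + 1) := by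
  haveI := derivedSeries_normal C (j + 1)
  let q := QuotientGroup.mk' (derivedSeries C (j + 1))
  have hq : Function.Surjective q := QuotientGroup.mk'_surjective _
  haveI := derivedSeries_normal (C ⧸ derivedSeries C (j + 1)) j
  have hcard : Nat.card (derivedSeries (C ⧸ derivedSeries C (j + 1)) j) ≤ B := by
    rw [← map_derivedSeries_eq hq, ← Subgroup.relIndex_ker, QuotientGroup.ker_mk']
    exact hj
  have h1 := derived_centralizes _ _ B hcard
  have h2 : ⁅derivedSeries (C ⧸ derivedSeries C (j + 1)) i,
      derivedSeries (C ⧸ derivedSeries C (j + 1)) j⁆ = ⊥ :=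
    le_bot_iff.mp (h1 ▸ commutator_mono (derivedSeries_antitone _ hi) le_rfl)
  rw [← map_derivedSeries_eq hq, ← map_derivedSeries_eq hq, ← map_commutator,
    Subgroup.map_eq_bot_iff, QuotientGroup.ker_mk'] at h2
  exact h2

theorem derived_eq_bot_of_small (C : Type) [Group C] [Finite C] [Group.IsSolvable C] (B i : ℕ)
    (hi : B.factorial ≤ i)
    (h1 : (derivedSeries C (i + 2)).relIndex (derivedSeries C (i + 1)) ≤ B)
    (h2 : (derivedSeries C (i + 3)).relIndex (derivedSeries C (i + 2)) ≤ B) :
    derivedSeries C (i + 2) = ⊥ := by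
  have a1 := derived_comm_le C B i (i + 1) hi h1
  have a2 := derived_comm_le C B i (i + 2) hi h2
  haveI := derivedSeries_normal C (i + 3)
  let q := QuotientGroup.mk' (derivedSeries C (i + 3))
  have b2 : ⁅(derivedSeries C (i + 2)).map q, (derivedSeries C i).map q⁆ = ⊥ := by
    rw [← map_commutator, Subgroup.map_eq_bot_iff, QuotientGroup.ker_mk', commutator_comm]
    exact a2
  have b1 : ⁅(derivedSeries C i).map q, (derivedSeries C (i + 1)).map q⁆ ≤
      (derivedSeries C (i + 2)).map q := by
    rw [← map_commutator]; exact map_mono a1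
  have c1 : ⁅⁅(derivedSeries C i).map q, (derivedSeries C (i + 1)).map q⁆,
      (derivedSeries C i).map q⁆ = ⊥ :=
    le_bot_iff.mp (b2 ▸ commutator_mono b1 le_rfl)
  have c2 : ⁅⁅(derivedSeries C (i + 1)).map q, (derivedSeries C i).map q⁆,
      (derivedSeries C i).map q⁆ = ⊥ := by
    rw [commutator_comm ((derivedSeries C (i + 1)).map q)]; exact c1
  have c3 := commutator_commutator_eq_bot_of_rotate c1 c2
  rw [← map_commutator, ← map_commutator, Subgroup.map_eq_bot_iff, QuotientGroup.ker_mk'] at c3
  have hle : derivedSeries C (i + 2) ≤ derivedSeries C (i + 3) := c3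
  by_contra hne
  exact absurd hle (not_le_of_gt (Group.IsSolvable.commutator_lt_of_ne_bot hne))

theorem index_derived_ge (C : Type) [Group C] [Finite C] [Group.IsSolvable C] (B t : ℕ)
    (h : derivedSeries C (B.factorial + 2 * t) ≠ ⊥) :
    B ^ t ≤ (derivedSeries C (B.factorial + 2 * t + 1)).index := by
  induction t with
  | zero => simpa using Nat.one_le_iff_ne_zero.mpr Subgroup.index_ne_zero_of_finite
  | succ t ih =>
    have e1 : B.factorial + 2 * (t + 1) = (B.factorial + 2 * t) + 2 := by ring
    rw [e1] at h ⊢
    have h0 : derivedSeries C (B.factorial + 2 * t) ≠ ⊥ := fun h0 =>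
      h (le_bot_iff.mp (h0 ▸ derivedSeries_antitone C (by omega)))
    have ih' := ih h0
    set i := B.factorial + 2 * t with hi
    have r1 := relIndex_mul_index (derivedSeries_antitone C (show i + 1 ≤ i + 2 by omega))
    have r2 := relIndex_mul_index (derivedSeries_antitone C (show i + 2 ≤ i + 3 by omega))
    have p1 : 1 ≤ (derivedSeries C (i + 2)).relIndex (derivedSeries C (i + 1)) :=
      Nat.one_le_iff_ne_zero.mpr Subgroup.index_ne_zero_of_finite
    have p2 : 1 ≤ (derivedSeries C (i + 3)).relIndex (derivedSeries C (i + 2)) :=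
      Nat.one_le_iff_ne_zero.mpr Subgroup.index_ne_zero_of_finite
    have key : B ≤ (derivedSeries C (i + 3)).relIndex (derivedSeries C (i + 2)) *
        (derivedSeries C (i + 2)).relIndex (derivedSeries C (i + 1)) := by
      by_contra hc
      apply h
      apply derived_eq_bot_of_small C B i (by omega) <;> nlinarith
    rw [← r2, ← r1, pow_succ, ← mul_assoc, mul_comm (B ^ t)]
    exact Nat.mul_le_mul key ih'

/-- Finite soluble groups with `[C : C^(j)] ≤ D ^ j` for all `j` have bounded order. -/
theorem sol_bound (D : ℕ) : ∃ M : ℕ, ∀ (C : Type) [Group C] [Finite C] [Group.IsSolvable C],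
    (∀ j, (derivedSeries C j).index ≤ D ^ j) → Nat.card C ≤ M := by
  let B := (D + 2) ^ 3
  let r := B.factorial
  refine ⟨D ^ (r + 2 * (r + 2)), fun C _ _ _ h => ?_⟩
  have hb : derivedSeries C (r + 2 * (r + 2)) = ⊥ := by
    by_contra hne
    have h1 := index_derived_ge C B (r + 2) hne
    have h2 := h (r + 2 * (r + 2) + 1)
    have h3 : D ^ (r + 2 * (r + 2) + 1) ≤ (D + 2) ^ (r + 2 * (r + 2) + 1) :=
      Nat.pow_le_pow_left (by omega) _
    have h4 : (D + 2) ^ (r + 2 * (r + 2) + 1) < (D + 2) ^ (3 * (r + 2)) :=
      Nat.pow_lt_pow_right (by omega) (by omega)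
    have h5 : B ^ (r + 2) = (D + 2) ^ (3 * (r + 2)) := by rw [pow_mul]
    change B ^ (r + 2) ≤ (derivedSeries C (r + 2 * (r + 2) + 1)).index at h1
    omega
  have := h (r + 2 * (r + 2))
  rwa [hb, index_bot] at this

end Pool.Agent.P.MP_50f9b9_al
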